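import Pool.Agent.U198.FK.Slot

/-!
# Counting tests and steps
-/

set_option autoImplicit false
set_option linter.unusedVariables false

namespace Pool.Agent.U198.FK

open H974 Finset H342P H984P H984N
open scoped Classical

noncomputable section

/-- the slots -/
def Gs (D : Dm) (F : Finset Edg) : Finset Vtx := Fl (Yt D) (Gd D F)

/-- the tested vertices on the path -/
def Vi (D : Dm) (F : Finset Edg) : Finset Vtx := Fl (Yt D) (fun y => ∃ k < D.len F, ye D F k = y)

theorem lt_len {D : Dm} (hD : D.Ok) {F : Finset Edg} (hF : F ⊆ D.edges) {s : ℕ}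
    (h : ∀ j ≤ s, D.walk F j ≠ Dm.stop) : s < D.len F := by
  by_contra h1
  push Not at h1
  exact h _ h1 (walk_len hD hF)

theorem suc_le {D : Dm} (hD : D.Ok) {F : Finset Edg} (hF : F ⊆ D.edges) (N : ℕ) :
    nT (suc D) 0 N F ≤ (Gs D F).card := by
  unfold nT
  refine card_le_card_of_injOn (fun s => ye D F s) ?_ ?_
  · intro s hs
    obtain ⟨h1, h3⟩ := (mem_filter.1 (mem_coe.1 hs)).2
    obtain ⟨h4, h5, h6⟩ := h1
    refine mem_coe.2 (mem_Fl.2 ⟨h5, s, lt_len hD hF h4, rfl, ?_, ?_⟩)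
    · intro j hj h7
      exact h6 (mem_Vs.2 ⟨j, hj, h7⟩)
    · exact h3
  · intro s hs s' hs' h
    have h1 := ((mem_filter.1 (mem_coe.1 hs)).2).1.2.2
    have h2 := ((mem_filter.1 (mem_coe.1 hs')).2).1.2.2
    have h' : ye D F s = ye D F s' := h
    rcases lt_trichotomy s s' with h3 | h3 | h3
    · exact absurd (mem_Vs.2 ⟨s, h3, h'⟩) h2
    · exact h3
    · exact absurd (mem_Vs.2 ⟨s', h3, h'.symm⟩) h1

theorem tch_ge {D : Dm} {F : Finset Edg} {N : ℕ} (hN : D.len F ≤ N) :
    (Vi D F).card ≤ nT (tch D) 0 N F := by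
  unfold nT
  have h : Vi D F ⊆ ((Ico 0 N).filter (fun s => tch D s F)).image (fun s => ye D F s) := by
    intro y hy
    obtain ⟨h1, k, hk, hy⟩ := mem_Fl.1 hy
    have hex : ∃ k, ye D F k = y := ⟨k, hy⟩
    obtain ⟨m, hm⟩ : ∃ m, m = Nat.find hex := ⟨_, rfl⟩
    have h2 : ye D F m = y := by rw [hm]; exact Nat.find_spec hex
    have h3 : ∀ j < m, ye D F j ≠ y := by
      intro j hj
      rw [hm] at hj
      exact Nat.find_min hex hj
    have h4 : m ≤ k := by rw [hm]; exact Nat.find_min' hex hy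
    rw [mem_image]
    refine ⟨m, mem_filter.2 ⟨mem_Ico.2 ⟨Nat.zero_le _, by omega⟩, ?_, ?_, ?_⟩, h2⟩
    · intro j hj
      exact clu_ne_stop (D := D) (F := F) (k := j) (by omega)
    · rw [h2]
      exact h1
    · rw [h2]
      intro h5
      obtain ⟨j, hj, hj'⟩ := mem_Vs.1 h5
      exact h3 j hj hj'
  exact (card_le_card h).trans card_image_le

/-- the path crosses every row -/
theorem cross {D : Dm} (hD : D.Ok) {F : Finset Edg} (hF : F ⊆ D.edges) {b : ℤ} (hb : 0 ≤ b)
    (hbh : b < D.h) : ∃ j < D.len F, (D.walk F j).1.2 = b + 1 ∧ (D.walk F (j + 1)).1.2 = b := by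
  have hex : ∃ m, (D.walk F m).1.2 ≤ b := by
    refine ⟨D.len F, ?_⟩
    rw [walk_len hD hF]
    exact hb
  obtain ⟨m, hm⟩ : ∃ m, m = Nat.find hex := ⟨_, rfl⟩
  have h1 : (D.walk F m).1.2 ≤ b := by rw [hm]; exact Nat.find_spec hex
  have h2 : ∀ j < m, ¬ (D.walk F j).1.2 ≤ b := by
    intro j hj
    rw [hm] at hj
    exact Nat.find_min hex hj
  have h3 : m ≤ D.len F := by
    rw [hm]
    refine Nat.find_min' hex ?_
    rw [walk_len hD hF]
    exact hb
  have h4 : m ≠ 0 := by
    intro h0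
    rw [h0, walk_zero] at h1
    have : (Dm.start D).1.2 = D.h := rfl
    omega
  obtain ⟨j, rfl⟩ : ∃ j, m = j + 1 := ⟨m - 1, by omega⟩
  have h5 := h2 j (Nat.lt_succ_self j)
  have h6 := walk_step D F j
  unfold sd at h6
  have h7 : |(D.walk F j).1.2 - (D.walk F (j + 1)).1.2| ≤ 1 := (le_max_right _ _).trans h6
  rw [abs_le] at h7
  exact ⟨j, by omega, by omega, by omega⟩

theorem cross_state {D : Dm} {F : Finset Edg} {b : ℤ} {j : ℕ} (h1 : (D.walk F j).1.2 = b + 1)
    (h2 : (D.walk F (j + 1)).1.2 = b) : D.walk F j = (((D.walk F j).1.1, b + 1), .se) ∧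
      D.walk F (j + 1) = (((D.walk F j).1.1, b), .ne) := by
  rw [walk_succ] at h2 ⊢
  generalize D.walk F j = σ at *
  obtain ⟨⟨x, y⟩, c⟩ := σ
  have h1' : y = b + 1 := h1
  subst h1'
  by_cases h : ae ((x, b + 1), c) ∈ D.cfg F
  · rw [nxt_open h] at h2 ⊢
    cases c <;> simp at h2 ⊢ <;> omega
  · rw [nxt_closed h, p2_rt_fst] at h2
    simp only at h2
    omega

theorem not_wir {D : Dm} (hD : D.Ok) {y : Vtx} (h1 : y.1 ≠ D.l) (h2 : 0 < y.2) (h3 : y.2 < D.h) :
    ∀ e ∈ D.wir, src e ≠ y ∧ tgt e ≠ y := by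
  intro e he
  obtain ⟨x, z, c⟩ := e
  have he' : (c = true ∧ z = D.h ∧ D.l ≤ x ∧ x < D.t) ∨
      (c = false ∧ x = D.l ∧ 0 ≤ z ∧ z < D.h) ∨ (c = true ∧ z = 0 ∧ D.l ≤ x ∧ x < 0) := he
  rw [← not_or]
  intro h
  cases c
  · simp only [Bool.false_eq_true, false_and, false_or, or_false, true_and] at he'
    simp only [src_mk, tgt_false] at h
    rcases h with h | h <;> rw [← h] at h1 h2 h3 <;> simp only at h1 h2 h3 <;> omega
  · simp only [Bool.true_eq_false, false_and, false_or, true_and] at he'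
    simp only [src_mk, tgt_true] at h
    rcases h with h | h <;> rw [← h] at h1 h2 h3 <;> simp only at h1 h2 h3 <;> omega

/-- every second pair of rows contains a tested vertex on the path -/
theorem row {D : Dm} (hD : D.Ok) {F : Finset Edg} (hF : F ⊆ D.edges) {b : ℤ} (hb : 0 < b)
    (hbh : b + 1 < D.h) (hpar : Odd (D.l + b)) : ∃ y ∈ Vi D F, y.2 = b ∨ y.2 = b + 1 := by
  obtain ⟨j, hj, h1, h2⟩ := cross hD hF hb.le (by omega : b < D.h)
  obtain ⟨h3, h4⟩ := cross_state h1 h2
  obtain ⟨x, hx⟩ : ∃ x, x = (D.walk F j).1.1 := ⟨_, rfl⟩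
  rw [← hx] at h3 h4
  have hin := walk_in hD hF j
  rw [h3] at hin
  have hin' : (D.l ≤ x ∧ x ≤ D.r) ∧ (0 ≤ b + 1 ∧ b + 1 ≤ D.h) := hin
  by_cases hxl : x = D.l
  · -- the next examined edge
    have hj1 : j + 1 < D.len F := by
      rcases Nat.lt_or_ge (j + 1) (D.len F) with h5 | h5
      · exact h5
      · exfalso
        have h6 : D.len F = j + 1 := by omega
        have h7 := walk_len hD hF
        rw [h6, h4] at h7
        have h8 : b = 0 := congrArg (fun s : St => s.1.2) h7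
        omega
    have h5 : ye D F (j + 1) = (x + 1, b) := by
      unfold ye
      rw [h4, ae_ne]
      refine ev_of ?_ (Or.inr (by simp))
      unfold Ev
      have h6 : (x + 1) + b = (D.l + b) + 1 := by rw [hxl]; ring
      show Even ((x + 1) + b)
      rw [h6]
      exact hpar.add_one
    refine ⟨(x + 1, b), mem_Fl.2 ⟨mem_Yt.2 ⟨?_, ?_, ?_⟩, j + 1, hj1, h5⟩, Or.inl rfl⟩
    · have := hD.l_neg
      have := hD.r_pos
      refine ⟨⟨?_, ?_⟩, ?_, ?_⟩
      · show D.l ≤ x + 1
        omega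
      · show x + 1 ≤ D.r
        omega
      · show 0 ≤ b
        omega
      · show b ≤ D.h
        omega
    · unfold Ev
      have h6 : (x + 1) + b = (D.l + b) + 1 := by rw [hxl]; ring
      show Even ((x + 1) + b)
      rw [h6]
      exact hpar.add_one
    · refine not_wir hD ?_ ?_ ?_
      · show x + 1 ≠ D.l
        omega
      · show 0 < b
        omega
      · show b < D.h
        omega
  · obtain ⟨y, hy⟩ : ∃ y, y = ye D F j := ⟨_, rfl⟩
    have h5 : y = (x, b) ∨ y = (x, b + 1) := by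
      rw [hy]
      unfold ye
      rw [h3, ae_se]
      rcases ev_end (x, b + 1 - 1, false) with h6 | h6
      · left
        rw [h6, src_mk]
        simp
      · right
        rw [h6, tgt_false]
        simp
    have h6 : y.1 = x := by rcases h5 with h5 | h5 <;> rw [h5]
    have h7 : y.2 = b ∨ y.2 = b + 1 := by
      rcases h5 with h5 | h5
      · left; rw [h5]
      · right; rw [h5]
    refine ⟨y, mem_Fl.2 ⟨mem_Yt.2 ⟨?_, ?_, ?_⟩, j, hj, hy.symm⟩, h7⟩
    · refine ⟨⟨?_, ?_⟩, ?_, ?_⟩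
      · omega
      · omega
      · omega
      · omega
    · rw [hy]
      exact ev_even _
    · refine not_wir hD ?_ ?_ ?_
      · omega
      · omega
      · omega

/-- lower bound for the number of tests -/
theorem vi_ge {D : Dm} (hD : D.Ok) {F : Finset Edg} (hF : F ⊆ D.edges) :
    ((D.h - 2) / 2).toNat ≤ (Vi D F).card := by
  obtain ⟨b₀, hb₀, hpar⟩ : ∃ b₀ : ℤ, (b₀ = 1 ∨ b₀ = 2) ∧ Odd (D.l + b₀) := by
    rcases Int.even_or_odd (D.l + 1) with h | h
    · refine ⟨2, Or.inr rfl, ?_⟩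
      have : D.l + 2 = (D.l + 1) + 1 := by ring
      rw [this]
      exact h.add_one
    · exact ⟨1, Or.inl rfl, h⟩
  have h1 : Finset.Ico (0 : ℤ) ((D.h - 2) / 2) ⊆ (Vi D F).image (fun y => (y.2 - b₀) / 2) := by
    intro i hi
    rw [mem_Ico] at hi
    obtain ⟨hi0, hi1⟩ := hi
    have h2 : Odd (D.l + (b₀ + 2 * i)) := by
      rw [← add_assoc]
      exact hpar.add_even (even_two_mul i)
    obtain ⟨y, hy, hy'⟩ := row hD hF (b := b₀ + 2 * i) (by omega) (by omega) h2
    rw [mem_image]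
    refine ⟨y, hy, ?_⟩
    omega
  have h2 := card_le_card h1
  rw [Int.card_Ico, sub_zero] at h2
  exact h2.trans card_image_le

/-- upper bound for the number of steps -/
theorem len_le {D : Dm} (hD : D.Ok) {F : Finset Edg} (hF : F ⊆ D.edges) :
    (D.len F : ℤ) ≤ 20 * ((Vi D F).card + 3 * (D.h + 3) + 4 * (D.r - D.l + 3)) := by
  obtain ⟨U, hU⟩ : ∃ U, U = Vs D (D.len F) F := ⟨_, rfl⟩
  obtain ⟨nb, hnb⟩ : ∃ nb : Vtx → Finset Vtx, nb = fun y =>
    {y, (y.1 + 1, y.2), (y.1 - 1, y.2), (y.1, y.2 + 1), (y.1, y.2 - 1)} := ⟨_, rfl⟩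
  have hnbc : ∀ y, (nb y).card ≤ 5 := by
    intro y
    rw [hnb]
    exact Finset.card_le_five
  have hnb1 : ∀ σ : St, σ.1 ∈ nb (ev (ae σ)) := by
    rintro ⟨⟨x, y⟩, c⟩
    rw [hnb]
    rcases ev_end (ae ((x, y), c)) with h | h
    · rw [h]
      cases c <;> simp
    · rw [h]
      cases c <;> simp
  -- the states
  have h1 : (range (D.len F)).card ≤ ((U.biUnion nb) ×ˢ (Finset.univ : Finset Q4)).card := by
    refine card_le_card_of_injOn (fun j => D.walk F j) ?_ ?_
    · intro j hj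
      have hj' : j < D.len F := by simpa using hj
      rw [mem_coe, mem_product]
      refine ⟨mem_biUnion.2 ⟨ye D F j, ?_, ?_⟩, mem_univ _⟩
      · rw [hU]
        exact mem_Vs.2 ⟨j, hj', rfl⟩
      · exact hnb1 (D.walk F j)
    · intro i hi j hj h
      have hi' : i < D.len F := by simpa using hi
      have hj' : j < D.len F := by simpa using hj
      rcases lt_trichotomy i j with h3 | h3 | h3
      · exact absurd h (walk_inj hD hF h3 hj'.le)
      · exact h3
      · exact absurd h.symm (walk_inj hD hF h3 hi'.le)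
  rw [card_range, card_product] at h1
  have hQ : (Finset.univ : Finset Q4).card = 4 := by decide
  rw [hQ] at h1
  have h2 : (U.biUnion nb).card ≤ U.card * 5 := card_biUnion_le_card_mul _ _ _ (fun y _ => hnbc y)
  -- the vertices which are not tested
  obtain ⟨R, hR⟩ : ∃ R : Finset Vtx, R =
    (({D.l - 1, D.l, D.r + 1} : Finset ℤ) ×ˢ Finset.Icc (-1) (D.h + 1)) ∪
      (Finset.Icc (D.l - 1) (D.r + 1) ×ˢ ({-1, 0, D.h, D.h + 1} : Finset ℤ)) := ⟨_, rfl⟩
  have hl := hD.l_neg
  have hr := hD.r_pos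
  have hh := hD.h_pos
  have hRc : (R.card : ℤ) ≤ 3 * (D.h + 3) + 4 * (D.r - D.l + 3) := by
    have h3 : R.card ≤ 3 * (D.h + 3).toNat + (D.r - D.l + 3).toNat * 4 := by
      rw [hR]
      refine (card_union_le _ _).trans ?_
      rw [card_product, card_product, Int.card_Icc, Int.card_Icc]
      have e1 : D.h + 1 + 1 - -1 = D.h + 3 := by ring
      have e2 : D.r + 1 + 1 - (D.l - 1) = D.r - D.l + 3 := by ring
      rw [e1, e2]
      exact Nat.add_le_add (Nat.mul_le_mul_right _ Finset.card_le_three)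
        (Nat.mul_le_mul_left _ Finset.card_le_four)
    have h4 : ((D.h + 3).toNat : ℤ) = D.h + 3 := Int.toNat_of_nonneg (by omega)
    have h5 : ((D.r - D.l + 3).toNat : ℤ) = D.r - D.l + 3 := Int.toNat_of_nonneg (by omega)
    have h6 : (R.card : ℤ) ≤ ((3 * (D.h + 3).toNat + (D.r - D.l + 3).toNat * 4 : ℕ) : ℤ) := by
      exact_mod_cast h3
    push_cast at h6
    omega
  have h3 : U ⊆ Vi D F ∪ R := by
    intro y hy
    rw [hU] at hy
    obtain ⟨j, hj, hyj⟩ := mem_Vs.1 hy
    rw [mem_union]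
    by_cases hY : y ∈ Yt D
    · exact Or.inl (mem_Fl.2 ⟨hY, j, hj, hyj⟩)
    · right
      have hin := walk_in hD hF j
      have hyE : Ev y := by rw [← hyj]; exact ev_even _
      have hnear : D.l - 1 ≤ y.1 ∧ y.1 ≤ D.r + 1 ∧ -1 ≤ y.2 ∧ y.2 ≤ D.h + 1 := by
        have h0 : y = ev (ae (D.walk F j)) := hyj.symm
        obtain ⟨σ, hσ⟩ : ∃ σ, σ = D.walk F j := ⟨_, rfl⟩
        rw [← hσ] at h0 hin
        obtain ⟨⟨x, z⟩, c⟩ := σ
        have hin' : (D.l ≤ x ∧ x ≤ D.r) ∧ (0 ≤ z ∧ z ≤ D.h) := hin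
        rcases ev_end (ae ((x, z), c)) with h | h
        · rw [h0, h]
          cases c <;> simp <;> omega
        · rw [h0, h]
          cases c <;> simp <;> omega
      have hbd : y.1 ≤ D.l ∨ D.r + 1 ≤ y.1 ∨ y.2 ≤ 0 ∨ D.h ≤ y.2 := by
        by_contra hcon
        push Not at hcon
        refine hY (mem_Yt.2 ⟨⟨⟨by omega, by omega⟩, by omega, by omega⟩, hyE, ?_⟩)
        exact not_wir hD (by omega) (by omega) (by omega)
      rw [hR, mem_union, mem_product, mem_product]
      simp only [mem_insert, mem_singleton, mem_Icc]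
      omega
  have h4 : U.card ≤ (Vi D F).card + R.card := (card_le_card h3).trans (card_union_le _ _)
  have h5 : D.len F ≤ 20 * ((Vi D F).card + R.card) := by
    calc D.len F ≤ (U.biUnion nb).card * 4 := h1
      _ ≤ (U.card * 5) * 4 := Nat.mul_le_mul_right _ h2
      _ = 20 * U.card := by ring
      _ ≤ _ := Nat.mul_le_mul_left _ h4
  have h6 : (D.len F : ℤ) ≤ ((20 * ((Vi D F).card + R.card) : ℕ) : ℤ) := by exact_mod_cast h5
  push_cast at h6
  linarith

/-- crude upper bound for the number of steps -/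
theorem len_le' {D : Dm} (hD : D.Ok) {F : Finset Edg} (hF : F ⊆ D.edges) :
    (D.len F : ℤ) ≤ 4 * ((D.r - D.l + 1) * (D.h + 1)) := by
  have h1 : (range (D.len F)).card ≤ D.states.card := by
    refine card_le_card_of_injOn (fun j => D.walk F j) ?_ ?_
    · intro j hj
      have h := walk_in hD hF j
      unfold Dm.states
      rw [mem_coe, mem_product, mem_product, mem_Icc, mem_Icc]
      exact ⟨h, mem_univ _⟩
    · intro i hi j hj h
      have hi' : i < D.len F := by simpa using hi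
      have hj' : j < D.len F := by simpa using hj
      rcases lt_trichotomy i j with h3 | h3 | h3
      · exact absurd h (walk_inj hD hF h3 hj'.le)
      · exact h3
      · exact absurd h.symm (walk_inj hD hF h3 hi'.le)
  rw [card_range] at h1
  unfold Dm.states at h1
  rw [card_product, card_product, Int.card_Icc, Int.card_Icc] at h1
  have hQ : (Finset.univ : Finset Q4).card = 4 := by decide
  rw [hQ] at h1
  have hl := hD.l_neg
  have hr := hD.r_pos
  have hh := hD.h_pos
  have h4 : ((D.r + 1 - D.l).toNat : ℤ) = D.r - D.l + 1 := by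
    rw [Int.toNat_of_nonneg (by omega)]
    ring
  have h5 : ((D.h + 1 - 0).toNat : ℤ) = D.h + 1 := by
    rw [Int.toNat_of_nonneg (by omega)]
    ring
  have h6 : (D.len F : ℤ) ≤ (((D.r + 1 - D.l).toNat * (D.h + 1 - 0).toNat * 4 : ℕ) : ℤ) := by
    exact_mod_cast h1
  push_cast at h6
  rw [h4, h5] at h6
  linarith

end

end Pool.Agent.U198.FK
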