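import Pool.Agent.U198.FK.Count

/-!
# The number of steps of the interface of the random-cluster model: all orders
-/

set_option autoImplicit false
set_option linter.unusedVariables false

namespace Pool.Agent.U198.FK

open H974 Finset H342P H984P H984N
open scoped Classical

noncomputable section

/-- A functional which does not change when an isolated even vertex is attached by one edge. -/
def Inv (D : Dm) (G : Finset Edg → ℝ) : Prop :=
  ∀ F ⊆ D.edges, ∀ e ∈ D.edges, ∀ y : Vtx, Even (y.1 + y.2) → (src e = y ∨ tgt e = y) →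
    (∀ e' ∈ D.cfg F, src e' ≠ y ∧ tgt e' ≠ y) → G (insert e F) = G F

theorem gd_props {D : Dm} (hD : D.Ok) {F : Finset Edg} (hF : F ⊆ D.edges) {y : Vtx}
    (hy : y ∈ Yt D) (h : Gd D F y) (he : eg D F y ∉ F) :
    (src (eg D F y) = y ∨ tgt (eg D F y) = y) ∧
      (∀ e' ∈ D.cfg F, src e' ≠ y ∧ tgt e' ≠ y) ∧
      ∃ v, inR D.l D.r 0 D.h v ∧ v ≠ y ∧ Adj {eg D F y} v y := by
  obtain ⟨k, hk⟩ := h
  rw [hk.eg] at he ⊢
  have h1 := hk.mv hD hy
  have h2 := p2_ends (D.walk F k)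
  rw [h1] at h2
  refine ⟨?_, hk.iso hy he, (D.walk F k).1, walk_in hD hF k, hk.ne hD hy, ?_⟩
  · rcases h2 with ⟨_, h3⟩ | ⟨h3, _⟩
    · exact Or.inr h3
    · exact Or.inl h3
  · refine ⟨ae (D.walk F k), rfl, ?_⟩
    rcases h2 with ⟨h3, h4⟩ | ⟨h3, h4⟩
    · exact Or.inl ⟨h3, h4⟩
    · exact Or.inr ⟨h3, h4⟩

open Pool.Agent.N929.EG in
theorem Pl_eq {α σ : Type} (Y : TS α σ) (w : α) (G : Finset σ)
    (h : ∀ y, y ∈ G ↔ (y ∈ Y.S w ∨ y ∈ Y.B w)) : (Pl' Y ∅ w).card = G.card := by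
  congr 1
  ext y
  unfold Pl'
  rw [mem_sdiff, mem_union, h]
  constructor
  · rintro ⟨h, _⟩
    exact h
  · intro h
    exact ⟨h, notMem_empty y⟩

open Pool.Agent.N929.EG in
theorem card_Pl {D : Dm} (hD : D.Ok) (F : Finset Edg) :
    (Pl' (TSf D hD) ∅ F).card = (Gs D F).card := by
  refine Pl_eq _ _ _ (fun y => ?_)
  show y ∈ Fl (Yt D) (Gd D F) ↔ (y ∈ Fl (Yt D) (fun y => Gd D F y ∧ eg D F y ∉ F) ∨
    y ∈ Fl (Yt D) (fun y => Gd D F y ∧ eg D F y ∈ F))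
  rw [mem_Fl, mem_Fl, mem_Fl]
  constructor
  · rintro ⟨h1, h2⟩
    by_cases h3 : eg D F y ∈ F
    · exact Or.inr ⟨h1, h2, h3⟩
    · exact Or.inl ⟨h1, h2, h3⟩
  · rintro (h | h)
    · exact ⟨h.1, h.2.1⟩
    · exact ⟨h.1, h.2.1⟩

open Pool.Agent.N929.EG in
/-- the differences are small if there are many slots -/
theorem mainA {c : ℝ} (hc : 0 < c) (r : ℕ) : ∃ C : ℝ, 0 < C ∧ ∀ q x : ℝ, 0 < q → 0 < x →
    (1 + x / q) / Real.sqrt (x / q) ≤ c → ∀ D : Dm, D.Ok → ∀ G : Finset Edg → ℝ,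
    (∀ F ⊆ D.edges, 0 ≤ G F) → Inv D G → ∀ g : ℕ → ℝ, (∀ n, |g n| ≤ 1) →
    |∑ F ∈ D.edges.powerset, wt q x D F * (G F * Seq.D 4 r g (D.len F))| ≤
      C * ∑ F ∈ D.edges.powerset, wt q x D F * (G F / Real.sqrt ((Gs D F).card + 1) ^ r) := by
  obtain ⟨C, hC, h⟩ := gc hc 4 1 r
  refine ⟨C, hC, ?_⟩
  intro q x hq hx hcx D hD G hG hI g hg
  obtain ⟨τ, hτ⟩ : ∃ τ, τ = x / q := ⟨_, rfl⟩
  have hτ0 : 0 < τ := by rw [hτ]; exact div_pos hx hq
  obtain ⟨z, hz⟩ : ∃ z, z = Real.sqrt (Real.sqrt τ) := ⟨_, rfl⟩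
  have hz0 : 0 < z := by rw [hz]; exact Real.sqrt_pos.2 (Real.sqrt_pos.2 hτ0)
  have hz4 : z ^ 4 = τ := by
    rw [hz, show (4 : ℕ) = 2 * 2 by norm_num, pow_mul, Real.sq_sqrt (Real.sqrt_nonneg _),
      Real.sq_sqrt hτ0.le]
  obtain ⟨N, hN⟩ : ∃ N, N = D.edges.powerset.sup D.len := ⟨_, rfl⟩
  have hNle : ∀ F ∈ D.edges.powerset, D.len F ≤ N := by
    intro F hF
    rw [hN]
    exact Finset.le_sup hF
  obtain ⟨Φ, hΦ⟩ : ∃ Φ : Finset Edg → ℝ, Φ = fun F =>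
    if F ∈ D.edges.powerset then G F * (wt q x D F / z ^ D.len F) else 0 := ⟨_, rfl⟩
  have h1 := h z hz0 (by rw [hz4, hτ]; exact hcx) _ _ (TSf D hD) rfl (le_refl 1) N (by
    intro n hn
    rw [← Finset.not_nonempty_iff_eq_empty]
    rintro ⟨F, hF⟩
    have hF' : F ∈ Fl D.edges.powerset (fun F => D.len F = n) := hF
    obtain ⟨h2, h3⟩ := mem_Fl.1 hF'
    have := hNle F h2
    omega) ∅ Φ g (by
    intro F
    rw [hΦ]
    show 0 ≤ if F ∈ D.edges.powerset then G F * (wt q x D F / z ^ D.len F) else 0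
    split_ifs with h2
    · exact mul_nonneg (hG F (mem_powerset.1 h2)) (div_nonneg (wt_pos hq hx D F).le (by positivity))
    · exact le_rfl) (by
    intro n F hF y hy _
    have hF' : F ∈ Fl D.edges.powerset (fun F => D.len F = n) := hF
    have hy' : y ∈ Fl (Yt D) (fun y => Gd D F y ∧ eg D F y ∉ F) := hy
    obtain ⟨h2, h3⟩ := mem_Fl.1 hF'
    obtain ⟨h4, h5, h6⟩ := mem_Fl.1 hy'
    obtain ⟨g1, g2, g3, g4⟩ := gd_insert hD (mem_powerset.1 h2) h4 h5 h6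
    obtain ⟨p1, p2, v, p3, p4, p5⟩ := gd_props hD (mem_powerset.1 h2) h4 h5 h6
    show Φ (insert (eg D F y) F) = Φ F
    have hedge : eg D F y ∈ D.edges := g1 (mem_insert_self _ _)
    have e1 := hI F (mem_powerset.1 h2) _ hedge y (mem_Yt.1 h4).2.1 p1 p2
    have e2 := wt_isolated (x := x) hq D h6 p3 (mem_Yt.1 h4).1 p4 p5 p2
    rw [hΦ]
    show (if insert (eg D F y) F ∈ D.edges.powerset then G (insert (eg D F y) F) *
      (wt q x D (insert (eg D F y) F) / z ^ D.len (insert (eg D F y) F)) else 0) =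
      if F ∈ D.edges.powerset then G F * (wt q x D F / z ^ D.len F) else 0
    rw [if_pos (mem_powerset.2 g1), if_pos h2, e1, e2, g2, pow_add, hz4, ← hτ]
    have hzl : z ^ D.len F ≠ 0 := pow_ne_zero _ hz0.ne'
    congr 1
    field_simp) hg
  have hAll : All (TSf D hD) N = D.edges.powerset := by
    ext F
    rw [mem_All]
    constructor
    · rintro ⟨h2, _⟩
      have h3 : F ∈ Fl D.edges.powerset (fun F' => D.len F' = D.len F) := h2
      exact (mem_Fl.1 h3).1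
    · intro h2
      refine ⟨?_, hNle F h2⟩
      show F ∈ Fl D.edges.powerset (fun F' => D.len F' = D.len F)
      exact mem_Fl.2 ⟨h2, rfl⟩
  rw [hAll] at h1
  have e1 : ∑ F ∈ D.edges.powerset, z ^ (TSf D hD).len F * (Φ F * Seq.D 4 r g ((TSf D hD).len F)) =
      ∑ F ∈ D.edges.powerset, wt q x D F * (G F * Seq.D 4 r g (D.len F)) := by
    refine sum_congr rfl fun F hF => ?_
    have hl : (TSf D hD).len F = D.len F := rfl
    have hzl : z ^ D.len F ≠ 0 := pow_ne_zero _ hz0.ne'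
    rw [hΦ, hl]
    simp only [if_pos hF]
    field_simp
  have e2 : ∑ F ∈ D.edges.powerset, z ^ (TSf D hD).len F *
      (Φ F / Real.sqrt (((Pl' (TSf D hD) ∅ F).card : ℝ) + 1) ^ r) =
      ∑ F ∈ D.edges.powerset, wt q x D F * (G F / Real.sqrt ((Gs D F).card + 1) ^ r) := by
    refine sum_congr rfl fun F hF => ?_
    have hl : (TSf D hD).len F = D.len F := rfl
    have hzl : z ^ D.len F ≠ 0 := pow_ne_zero _ hz0.ne'
    rw [hΦ, hl, card_Pl]
    simp only [if_pos hF]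
    field_simp
  rw [e1, e2] at h1
  exact h1

theorem pow_le_exp {lam : ℝ} (h : 1 < lam) (r : ℕ) : ∃ C : ℝ, 0 < C ∧ ∀ v : ℕ,
    ((v : ℝ) + 2) ^ r ≤ C * lam ^ v := by
  have h1 := tendsto_pow_const_div_const_pow_of_one_lt r h
  obtain ⟨B, hB⟩ := h1.bddAbove_range
  have hB' : ∀ n : ℕ, (n : ℝ) ^ r / lam ^ n ≤ B := fun n => hB ⟨n, rfl⟩
  have hl : 0 < lam := by linarith
  refine ⟨(|B| + 1) * lam ^ 2, by positivity, fun v => ?_⟩
  have h2 := hB' (v + 2)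
  rw [div_le_iff₀ (pow_pos hl _)] at h2
  push_cast at h2
  calc ((v : ℝ) + 2) ^ r ≤ B * lam ^ (v + 2) := h2
    _ ≤ (|B| + 1) * lam ^ (v + 2) :=
      mul_le_mul_of_nonneg_right (by linarith [le_abs_self B]) (pow_pos hl _).le
    _ = _ := by rw [pow_add]; ring

/-- there are many slots -/
theorem mainB {ρ A : ℝ} (hρ : 0 ≤ ρ) (hA : 0 ≤ A) (r : ℕ) : ∃ C : ℝ, 0 < C ∧
    ∀ q x : ℝ, 0 < q → 0 < x → x + x / q ≤ ρ → ∀ D : Dm, D.Ok →
    ((D.r - D.l : ℤ) : ℝ) ≤ A * D.h →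
    ∑ F ∈ D.edges.powerset, wt q x D F * (1 / Real.sqrt ((Gs D F).card + 1) ^ r) ≤
      C * ∑ F ∈ D.edges.powerset, wt q x D F * (1 / Real.sqrt (D.len F + 1) ^ r) := by
  obtain ⟨K, hK⟩ : ∃ K : ℝ, K = (1 + ρ) ^ 4 := ⟨_, rfl⟩
  have hK1 : 1 ≤ K := by rw [hK]; exact one_le_pow₀ (by linarith)
  have hK0 : 0 < K := by linarith
  obtain ⟨Λ, hΛ⟩ : ∃ Λ : ℝ, Λ = 1 / (1 - (1 - 1 / 2) / K) := ⟨_, rfl⟩
  have hden : 0 < 1 - (1 - 1 / 2) / K := by
    have : (1 - 1 / 2) / K ≤ 1 / 2 := by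
      rw [div_le_iff₀ hK0]
      linarith
    linarith
  have hden1 : 1 - (1 - 1 / 2) / K < 1 := by
    have : 0 < (1 - 1 / 2) / K := by
      apply div_pos _ hK0
      norm_num
    linarith
  have hΛ1 : 1 < Λ := by
    rw [hΛ, lt_div_iff₀ hden]
    linarith
  have hΛ0 : 0 < Λ := by linarith
  have hΛK : Λ * (1 - (1 - 1 / 2) / K) ≤ 1 := by
    rw [hΛ, one_div_mul_cancel hden.ne']
  obtain ⟨lam, hlam⟩ : ∃ lam : ℝ, lam = Real.sqrt Λ := ⟨_, rfl⟩
  have hlam1 : 1 < lam := by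
    rw [hlam, Real.lt_sqrt (by norm_num)]
    linarith
  have hlam0 : 0 < lam := by linarith
  have hlam2 : Λ = lam ^ 2 := by rw [hlam, Real.sq_sqrt hΛ0.le]
  obtain ⟨M', hM'⟩ := pow_unbounded_of_one_lt (2 : ℝ) hlam1
  obtain ⟨M, hM⟩ : ∃ M, M = M' + 1 := ⟨_, rfl⟩
  have hM2 : 2 ≤ lam ^ M := by
    rw [hM, pow_succ]
    nlinarith [pow_pos hlam0 M']
  obtain ⟨C', hC', hexp⟩ := pow_le_exp hlam1 r
  obtain ⟨cA, hcA⟩ : ∃ cA : ℝ, cA = 20 * (22 + 3 * (3 + 4 * A)) + 1 := ⟨_, rfl⟩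
  have hcA0 : 0 < cA := by rw [hcA]; positivity
  obtain ⟨K1, hK1def⟩ : ∃ K1 : ℝ, K1 = 8 * (2 * A + 1) + 1 := ⟨_, rfl⟩
  have hK11 : 1 ≤ K1 := by rw [hK1def]; nlinarith
  have hMr : (1 : ℝ) ≤ M := by rw [hM]; push_cast; linarith [Nat.cast_nonneg (α := ℝ) M']
  refine ⟨Real.sqrt (M * cA) ^ r + C' * K1 ^ r, by positivity, ?_⟩
  intro q x hq hx hxρ D hD hDA
  obtain ⟨N, hN⟩ : ∃ N, N = D.edges.powerset.sup D.len := ⟨_, rfl⟩
  have hNle : ∀ F ∈ D.edges.powerset, D.len F ≤ N := by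
    intro F hF
    rw [hN]
    exact Finset.le_sup hF
  have hE := explFK hq hx hxρ D
  rw [← hK] at hE
  have h1 := expl hE (θ := 1 / 2) (Λ := Λ) (by norm_num) (by norm_num) hΛ0.le hK0 hΛK N
  obtain ⟨v0, hv0⟩ : ∃ v0 : ℕ, v0 = ((D.h - 2) / 2).toNat := ⟨_, rfl⟩
  have hh := hD.h_pos
  have hv0h : D.h ≤ 2 * (v0 : ℤ) + 3 := by omega
  have hh0 : (0 : ℝ) < D.h := by exact_mod_cast hh
  have hv0h' : (D.h : ℝ) ≤ 2 * (v0 : ℝ) + 3 := by exact_mod_cast hv0h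
  have hv00 : (0 : ℝ) ≤ v0 := Nat.cast_nonneg _
  -- termwise estimates
  have hterm : ∀ F ∈ D.edges.powerset, 1 / Real.sqrt ((Gs D F).card + 1) ^ r ≤
      Real.sqrt (M * cA) ^ r * (1 / Real.sqrt (D.len F + 1) ^ r) +
        (1 / lam ^ v0) * ((1 / 2) ^ nT (suc D) 0 N F * Λ ^ nT (tch D) 0 N F) := by
    intro F hF
    have hF' := mem_powerset.1 hF
    obtain ⟨S, hS⟩ : ∃ S, S = (Gs D F).card := ⟨_, rfl⟩
    obtain ⟨V, hV⟩ : ∃ V, V = (Vi D F).card := ⟨_, rfl⟩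
    have hvi := vi_ge hD hF'
    rw [← hV, ← hv0] at hvi
    have hlen := len_le hD hF'
    rw [← hV] at hlen
    have hhV : D.h ≤ 2 * (V : ℤ) + 3 := by omega
    have hhV' : (D.h : ℝ) ≤ 2 * (V : ℝ) + 3 := by exact_mod_cast hhV
    have hV0 : (0 : ℝ) ≤ V := Nat.cast_nonneg _
    have hlen' : (D.len F : ℝ) ≤ 20 * ((V : ℝ) + 3 * (D.h + 3) + 4 * (D.r - D.l + 3)) := by
      exact_mod_cast hlen
    have hDA' : (D.r : ℝ) - D.l ≤ A * D.h := by
      have := hDA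
      push_cast at this
      exact this
    have hcAV : (D.len F : ℝ) + 1 ≤ cA * (V + 1) := by
      have h2 : A * D.h ≤ A * (2 * (V : ℝ) + 3) := mul_le_mul_of_nonneg_left hhV' hA
      have h3 : 0 ≤ A * V := mul_nonneg hA hV0
      rw [hcA]
      nlinarith
    rw [← hS]
    have hlen0 : (0 : ℝ) < (D.len F : ℝ) + 1 := by positivity
    have hS0 : (0 : ℝ) < (S : ℝ) + 1 := by positivity
    have hp1 : 0 ≤ (1 / lam ^ v0) * ((1 / 2 : ℝ) ^ nT (suc D) 0 N F * Λ ^ nT (tch D) 0 N F) := by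
      positivity
    have hp2 : 0 ≤ Real.sqrt (M * cA) ^ r * (1 / Real.sqrt (D.len F + 1) ^ r) := by positivity
    rcases Nat.lt_or_ge V (M * (S + 1)) with hgood | hbad
    · have h2 : (V : ℝ) + 1 ≤ M * ((S : ℝ) + 1) := by exact_mod_cast hgood
      have h3 : (D.len F : ℝ) + 1 ≤ (M * cA) * ((S : ℝ) + 1) := by
        calc (D.len F : ℝ) + 1 ≤ cA * (V + 1) := hcAV
          _ ≤ cA * (M * ((S : ℝ) + 1)) := mul_le_mul_of_nonneg_left h2 hcA0.le
          _ = _ := by ring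
      have h4 : Real.sqrt ((D.len F : ℝ) + 1) ≤ Real.sqrt (M * cA) * Real.sqrt ((S : ℝ) + 1) := by
        rw [← Real.sqrt_mul (by positivity)]
        exact Real.sqrt_le_sqrt h3
      have h5 : Real.sqrt ((D.len F : ℝ) + 1) ^ r ≤
          Real.sqrt (M * cA) ^ r * Real.sqrt ((S : ℝ) + 1) ^ r := by
        rw [← mul_pow]
        exact pow_le_pow_left₀ (Real.sqrt_nonneg _) h4 _
      have h6 : 0 < Real.sqrt ((D.len F : ℝ) + 1) ^ r := pow_pos (Real.sqrt_pos.2 hlen0) _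
      have h7 : 0 < Real.sqrt ((S : ℝ) + 1) ^ r := pow_pos (Real.sqrt_pos.2 hS0) _
      have h8 : 1 / Real.sqrt ((S : ℝ) + 1) ^ r ≤
          Real.sqrt (M * cA) ^ r * (1 / Real.sqrt (D.len F + 1) ^ r) := by
        rw [mul_one_div, div_le_div_iff₀ h7 h6, one_mul]
        exact h5
      linarith
    · -- few slots
      have hMS : M * S ≤ V := by
        rw [Nat.mul_add] at hbad
        omega
      have h2 : 1 / Real.sqrt ((S : ℝ) + 1) ^ r ≤ 1 := by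
        rw [div_le_one (pow_pos (Real.sqrt_pos.2 hS0) _)]
        refine one_le_pow₀ ?_
        rw [Real.one_le_sqrt]
        linarith [Nat.cast_nonneg (α := ℝ) S]
      have h3 : nT (suc D) 0 N F ≤ S := by rw [hS]; exact suc_le hD hF' N
      have h4 : V ≤ nT (tch D) 0 N F := by rw [hV]; exact tch_ge (hNle F hF)
      have h5 : (1 / 2 : ℝ) ^ S ≤ (1 / 2 : ℝ) ^ nT (suc D) 0 N F :=
        pow_le_pow_of_le_one (by norm_num) (by norm_num) h3
      have h6 : Λ ^ V ≤ Λ ^ nT (tch D) 0 N F := pow_le_pow_right₀ hΛ1.le h4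
      have h7 : (1 / 2 : ℝ) ^ S * Λ ^ V ≤
          (1 / 2 : ℝ) ^ nT (suc D) 0 N F * Λ ^ nT (tch D) 0 N F :=
        mul_le_mul h5 h6 (by positivity) (by positivity)
      have h8 : (2 : ℝ) ^ S ≤ lam ^ V := by
        calc (2 : ℝ) ^ S ≤ (lam ^ M) ^ S := pow_le_pow_left₀ (by norm_num) hM2 _
          _ = lam ^ (M * S) := by rw [pow_mul]
          _ ≤ lam ^ V := pow_le_pow_right₀ hlam1.le hMS
      have h9 : lam ^ V ≤ (1 / 2 : ℝ) ^ S * Λ ^ V := by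
        rw [hlam2, ← pow_mul, mul_comm 2 V, pow_mul, sq, one_div, inv_pow,
          inv_mul_eq_div, le_div_iff₀ (by positivity), mul_comm]
        exact mul_le_mul_of_nonneg_right h8 (by positivity)
      have h10 : lam ^ v0 ≤ lam ^ V := pow_le_pow_right₀ hlam1.le hvi
      have h11 : 1 ≤ (1 / lam ^ v0) * ((1 / 2 : ℝ) ^ nT (suc D) 0 N F * Λ ^ nT (tch D) 0 N F) := by
        rw [one_div, inv_mul_eq_div, le_div_iff₀ (by positivity), one_mul]
        exact h10.trans (h9.trans h7)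
      linarith
  have hlow : ∀ F ∈ D.edges.powerset, 1 / lam ^ v0 ≤
      C' * K1 ^ r * (1 / Real.sqrt (D.len F + 1) ^ r) := by
    intro F hF
    have hF' := mem_powerset.1 hF
    have hlen := len_le' hD hF'
    have hlen' : (D.len F : ℝ) ≤ 4 * ((D.r - D.l + 1) * (D.h + 1)) := by exact_mod_cast hlen
    have hDA' : (D.r : ℝ) - D.l ≤ A * D.h := by
      have := hDA
      push_cast at this
      exact this
    have h2 : (D.r : ℝ) - D.l + 1 ≤ (2 * A + 1) * ((v0 : ℝ) + 2) := by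
      have h3 : A * D.h ≤ A * (2 * (v0 : ℝ) + 3) := mul_le_mul_of_nonneg_left hv0h' hA
      have h4 : 0 ≤ A * v0 := mul_nonneg hA hv00
      nlinarith
    have h3 : (D.h : ℝ) + 1 ≤ 2 * ((v0 : ℝ) + 2) := by linarith
    have h4 : ((D.r : ℝ) - D.l + 1) * (D.h + 1) ≤
        ((2 * A + 1) * ((v0 : ℝ) + 2)) * (2 * ((v0 : ℝ) + 2)) :=
      mul_le_mul h2 h3 (by linarith) (by positivity)
    have h5 : (D.len F : ℝ) + 1 ≤ (K1 * ((v0 : ℝ) + 2)) ^ 2 := by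
      have h6 : (1 : ℝ) ≤ ((v0 : ℝ) + 2) ^ 2 := by nlinarith
      have h7 : K1 ≤ K1 ^ 2 := by nlinarith
      have h8 : (D.len F : ℝ) + 1 ≤ K1 * ((v0 : ℝ) + 2) ^ 2 := by
        rw [hK1def]
        nlinarith
      rw [mul_pow]
      exact h8.trans (mul_le_mul_of_nonneg_right h7 (by positivity))
    have h6 : Real.sqrt ((D.len F : ℝ) + 1) ≤ K1 * ((v0 : ℝ) + 2) := by
      rw [Real.sqrt_le_left (by positivity)]
      exact h5
    have h7 : Real.sqrt ((D.len F : ℝ) + 1) ^ r ≤ K1 ^ r * (C' * lam ^ v0) := by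
      refine (pow_le_pow_left₀ (Real.sqrt_nonneg _) h6 r).trans ?_
      rw [mul_pow]
      exact mul_le_mul_of_nonneg_left (hexp v0) (by positivity)
    have hlen0 : (0 : ℝ) < (D.len F : ℝ) + 1 := by positivity
    have h8 : 0 < Real.sqrt ((D.len F : ℝ) + 1) ^ r := pow_pos (Real.sqrt_pos.2 hlen0) _
    rw [mul_one_div, div_le_div_iff₀ (by positivity) h8, one_mul]
    linarith
  obtain ⟨T, hT⟩ : ∃ T, T = ∑ F ∈ D.edges.powerset, wt q x D F *
    (1 / Real.sqrt (D.len F + 1) ^ r) := ⟨_, rfl⟩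
  rw [← hT]
  have hw : ∀ F, 0 ≤ wt q x D F := fun F => (wt_pos hq hx D F).le
  have s1 : ∑ F ∈ D.edges.powerset, wt q x D F * (1 / Real.sqrt ((Gs D F).card + 1) ^ r) ≤
      Real.sqrt (M * cA) ^ r * T + (1 / lam ^ v0) * ∑ F ∈ D.edges.powerset, wt q x D F := by
    have s2 : ∑ F ∈ D.edges.powerset, wt q x D F * (1 / Real.sqrt ((Gs D F).card + 1) ^ r) ≤
        ∑ F ∈ D.edges.powerset, (Real.sqrt (M * cA) ^ r *
          (wt q x D F * (1 / Real.sqrt (D.len F + 1) ^ r)) + (1 / lam ^ v0) *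
          (wt q x D F * ((1 / 2) ^ nT (suc D) 0 N F * Λ ^ nT (tch D) 0 N F))) := by
      refine sum_le_sum fun F hF => ?_
      refine (mul_le_mul_of_nonneg_left (hterm F hF) (hw F)).trans (le_of_eq ?_)
      ring
    rw [sum_add_distrib, ← mul_sum, ← mul_sum, ← hT] at s2
    refine s2.trans ?_
    have : (1 / lam ^ v0) * ∑ F ∈ D.edges.powerset,
        wt q x D F * ((1 / 2) ^ nT (suc D) 0 N F * Λ ^ nT (tch D) 0 N F) ≤
        (1 / lam ^ v0) * ∑ F ∈ D.edges.powerset, wt q x D F :=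
      mul_le_mul_of_nonneg_left h1 (by positivity)
    linarith
  have s3 : (1 / lam ^ v0) * ∑ F ∈ D.edges.powerset, wt q x D F ≤ C' * K1 ^ r * T := by
    rw [hT, mul_sum, mul_sum]
    refine sum_le_sum fun F hF => ?_
    calc 1 / lam ^ v0 * wt q x D F ≤ (C' * K1 ^ r * (1 / Real.sqrt (D.len F + 1) ^ r)) *
          wt q x D F := mul_le_mul_of_nonneg_right (hlow F hF) (hw F)
      _ = _ := by ring
  calc _ ≤ _ := s1
    _ ≤ Real.sqrt (M * cA) ^ r * T + C' * K1 ^ r * T := by linarith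
    _ = _ := by ring

end

end Pool.Agent.U198.FK
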