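import Mathlib

/-!
# Tests along an exploration: many tests succeed
-/

set_option autoImplicit false
set_option linter.unusedVariables false

namespace Pool.Agent.U198.FK

open Finset
open scoped Classical

noncomputable section

/-- the elements with a property -/
def Fl {α : Type} (Ω : Finset α) (P : α → Prop) : Finset α := Ω.filter (fun a => P a)

theorem mem_Fl {α : Type} {Ω : Finset α} {P : α → Prop} {a : α} : a ∈ Fl Ω P ↔ a ∈ Ω ∧ P a := by
  unfold Fl
  rw [mem_filter]

/-- an exploration: after `t` steps the information is `key t`; at step `t` a test may take place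
(`tch t`), which is decided by `key t`, and which may succeed (`suc t`), which is decided by
`key (t + 1)`; a test succeeds with conditional probability at least `1 / K` -/
structure Expl {α κ : Type} (Ω : Finset α) (w : α → ℝ) (key : ℕ → α → κ)
    (tch suc : ℕ → α → Prop) (K : ℝ) : Prop where
  w0 : ∀ a ∈ Ω, 0 ≤ w a
  key_mono : ∀ t, ∀ a ∈ Ω, ∀ b ∈ Ω, key (t + 1) a = key (t + 1) b → key t a = key t b
  tch_key : ∀ t, ∀ a ∈ Ω, ∀ b ∈ Ω, key t a = key t b → tch t a → tch t b
  suc_key : ∀ t, ∀ a ∈ Ω, ∀ b ∈ Ω, key (t + 1) a = key (t + 1) b → suc t a → suc t b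
  suc_tch : ∀ t, ∀ a ∈ Ω, suc t a → tch t a
  test : ∀ t, ∀ a ∈ Ω, tch t a → ∑ b ∈ Fl Ω (fun b => key t b = key t a), w b ≤
    K * ∑ b ∈ Fl Ω (fun b => key t b = key t a ∧ suc t b), w b

variable {α κ : Type} {Ω : Finset α} {w : α → ℝ} {key : ℕ → α → κ}
  {tch suc : ℕ → α → Prop} {K : ℝ}

/-- the numbers of tests and of successes in a time interval -/
def nT (tch : ℕ → α → Prop) (t N : ℕ) (a : α) : ℕ := ((Ico t N).filter (fun s => tch s a)).card

theorem nT_step (P : ℕ → α → Prop) {t N : ℕ} (h : t < N) (a : α) :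
    nT P t N a = (if P t a then 1 else 0) + nT P (t + 1) N a := by
  unfold nT
  have h1 : Ico t N = insert t (Ico (t + 1) N) := by
    ext x
    simp only [mem_insert, mem_Ico]
    omega
  rw [h1, filter_insert]
  by_cases hP : P t a
  · rw [if_pos hP, if_pos hP, card_insert_of_notMem (by simp)]
    ring
  · rw [if_neg hP, if_neg hP, zero_add]

theorem nT_end (P : ℕ → α → Prop) (N : ℕ) (a : α) : nT P N N a = 0 := by
  simp [nT]

theorem expl_class (E : Expl Ω w key tch suc K) {θ Λ : ℝ} (hθ : 0 ≤ θ) (hθ1 : θ ≤ 1) (hΛ : 0 ≤ Λ)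
    (hK : 0 < K) (hΛK : Λ * (1 - (1 - θ) / K) ≤ 1) (N : ℕ) : ∀ m t, t + m = N → ∀ a ∈ Ω,
    ∑ b ∈ Fl Ω (fun b => key t b = key t a), w b * (θ ^ nT suc t N b * Λ ^ nT tch t N b) ≤
      ∑ b ∈ Fl Ω (fun b => key t b = key t a), w b := by
  intro m
  induction m with
  | zero =>
    intro t ht a ha
    obtain rfl : t = N := by omega
    refine le_of_eq (sum_congr rfl fun b _ => ?_)
    rw [nT_end, nT_end]
    simp
  | succ m ih =>
    intro t ht a ha
    have htN : t < N := by omega
    obtain ⟨A, hA⟩ : ∃ A, A = Fl Ω (fun b => key t b = key t a) := ⟨_, rfl⟩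
    have hAΩ : ∀ b ∈ A, b ∈ Ω := fun b hb => by
      rw [hA] at hb
      exact (mem_Fl.1 hb).1
    obtain ⟨g, hg⟩ : ∃ g : α → ℝ, g = fun b => θ ^ (if suc t b then 1 else 0) *
      Λ ^ (if tch t b then 1 else 0) := ⟨_, rfl⟩
    have hg0 : ∀ b, 0 ≤ g b := fun b => by rw [hg]; positivity
    have e1 : ∀ b, w b * (θ ^ nT suc t N b * Λ ^ nT tch t N b) =
        g b * (w b * (θ ^ nT suc (t + 1) N b * Λ ^ nT tch (t + 1) N b)) := by
      intro b
      rw [nT_step suc htN, nT_step tch htN, hg, pow_add, pow_add]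
      ring
    rw [← hA]
    simp only [e1]
    -- classes of the next step
    have h1 : ∑ b ∈ A, g b * (w b * (θ ^ nT suc (t + 1) N b * Λ ^ nT tch (t + 1) N b)) ≤
        ∑ b ∈ A, g b * w b := by
      rw [← sum_fiberwise_of_maps_to (t := A.image (key (t + 1))) (g := key (t + 1))
        (fun b hb => mem_image_of_mem _ hb), ← sum_fiberwise_of_maps_to
        (t := A.image (key (t + 1))) (g := key (t + 1)) (s := A) (f := fun b => g b * w b)
        (fun b hb => mem_image_of_mem _ hb)]
      refine sum_le_sum fun k hk => ?_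
      obtain ⟨c, hc, rfl⟩ := mem_image.1 hk
      have hcΩ := hAΩ c hc
      have hcA : key t c = key t a := by
        rw [hA] at hc
        exact (mem_Fl.1 hc).2
      have h2 : A.filter (fun b => key (t + 1) b = key (t + 1) c) =
          Fl Ω (fun b => key (t + 1) b = key (t + 1) c) := by
        ext b
        rw [mem_filter, mem_Fl, hA, mem_Fl]
        constructor
        · rintro ⟨⟨h3, _⟩, h4⟩
          exact ⟨h3, h4⟩
        · rintro ⟨h3, h4⟩
          exact ⟨⟨h3, (E.key_mono t b h3 c hcΩ h4).trans hcA⟩, h4⟩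
      rw [h2]
      have h3 : ∀ b ∈ Fl Ω (fun b => key (t + 1) b = key (t + 1) c), g b = g c := by
        intro b hb
        obtain ⟨hb1, hb2⟩ := mem_Fl.1 hb
        have h4 : (suc t b ↔ suc t c) := ⟨E.suc_key t b hb1 c hcΩ hb2,
          E.suc_key t c hcΩ b hb1 hb2.symm⟩
        have h5 := E.key_mono t b hb1 c hcΩ hb2
        have h6 : (tch t b ↔ tch t c) := ⟨E.tch_key t b hb1 c hcΩ h5,
          E.tch_key t c hcΩ b hb1 h5.symm⟩
        rw [hg]
        simp only [h4, h6]
      have h4 : ∑ b ∈ Fl Ω (fun b => key (t + 1) b = key (t + 1) c),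
          g b * (w b * (θ ^ nT suc (t + 1) N b * Λ ^ nT tch (t + 1) N b)) =
          g c * ∑ b ∈ Fl Ω (fun b => key (t + 1) b = key (t + 1) c),
            (w b * (θ ^ nT suc (t + 1) N b * Λ ^ nT tch (t + 1) N b)) := by
        rw [mul_sum]
        exact sum_congr rfl (fun b hb => by rw [h3 b hb])
      have h5 : ∑ b ∈ Fl Ω (fun b => key (t + 1) b = key (t + 1) c), g b * w b =
          g c * ∑ b ∈ Fl Ω (fun b => key (t + 1) b = key (t + 1) c), w b := by
        rw [mul_sum]
        exact sum_congr rfl (fun b hb => by rw [h3 b hb])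
      rw [h4, h5]
      exact mul_le_mul_of_nonneg_left (ih (t + 1) (by omega) c hcΩ) (hg0 c)
    refine h1.trans ?_
    by_cases ht' : tch t a
    · have h2 : ∀ b ∈ A, g b * w b = Λ * w b - Λ * (1 - θ) * (if suc t b then w b else 0) := by
        intro b hb
        have hb1 := hAΩ b hb
        have hb2 : key t b = key t a := by
          rw [hA] at hb
          exact (mem_Fl.1 hb).2
        have h3 : tch t b := E.tch_key t a ha b hb1 hb2.symm ht'
        rw [hg]
        simp only [h3, if_true]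
        by_cases h4 : suc t b
        · simp only [h4, if_true]
          ring
        · simp only [h4, if_false]
          ring
      rw [sum_congr rfl h2, sum_sub_distrib, ← mul_sum, ← mul_sum, ← sum_filter]
      have h3 := E.test t a ha ht'
      have hAA : Fl Ω (fun b => key t b = key t a ∧ suc t b) = A.filter (fun b => suc t b) := by
        ext b
        rw [mem_Fl, mem_filter, hA, mem_Fl, and_assoc]
      rw [← hA, hAA] at h3
      obtain ⟨W, hW⟩ : ∃ W, W = ∑ b ∈ A, w b := ⟨_, rfl⟩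
      obtain ⟨V, hV⟩ : ∃ V, V = ∑ b ∈ A.filter (fun b => suc t b), w b := ⟨_, rfl⟩
      rw [← hW, ← hV] at h3 ⊢
      have hW0 : 0 ≤ W := by
        rw [hW]
        exact sum_nonneg fun b hb => E.w0 b (hAΩ b hb)
      have h4 : W / K ≤ V := by
        rw [div_le_iff₀ hK]
        linarith
      have h5 : Λ * (1 - θ) * (W / K) ≤ Λ * (1 - θ) * V :=
        mul_le_mul_of_nonneg_left h4 (mul_nonneg hΛ (by linarith))
      have h6 : Λ * (1 - (1 - θ) / K) * W ≤ 1 * W := mul_le_mul_of_nonneg_right hΛK hW0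
      have h7 : Λ * (1 - (1 - θ) / K) * W = Λ * W - Λ * (1 - θ) * (W / K) := by ring
      linarith
    · refine le_of_eq (sum_congr rfl fun b hb => ?_)
      have hb1 := hAΩ b hb
      have hb2 : key t b = key t a := by
        rw [hA] at hb
        exact (mem_Fl.1 hb).2
      have h3 : ¬ tch t b := fun h => ht' (E.tch_key t b hb1 a ha hb2 h)
      have h4 : ¬ suc t b := fun h => h3 (E.suc_tch t b hb1 h)
      rw [hg]
      simp [h3, h4]

/-- **Exploration lemma.** -/
theorem expl (E : Expl Ω w key tch suc K) {θ Λ : ℝ} (hθ : 0 ≤ θ) (hθ1 : θ ≤ 1) (hΛ : 0 ≤ Λ)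
    (hK : 0 < K) (hΛK : Λ * (1 - (1 - θ) / K) ≤ 1) (N : ℕ) :
    ∑ b ∈ Ω, w b * (θ ^ nT suc 0 N b * Λ ^ nT tch 0 N b) ≤ ∑ b ∈ Ω, w b := by
  rw [← sum_fiberwise_of_maps_to (t := Ω.image (key 0)) (g := key 0)
    (fun b hb => mem_image_of_mem _ hb), ← sum_fiberwise_of_maps_to
    (t := Ω.image (key 0)) (g := key 0) (s := Ω) (f := fun b => w b)
    (fun b hb => mem_image_of_mem _ hb)]
  refine sum_le_sum fun k hk => ?_
  obtain ⟨c, hc, rfl⟩ := mem_image.1 hk
  have h := expl_class E hθ hθ1 hΛ hK hΛK N N 0 (by omega) c hc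
  exact h

end

end Pool.Agent.U198.FK
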