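import Pool.Agent.H984R4.NP.Clu

/-!
# The random-cluster model in a rectangle: weights and clusters
-/

set_option autoImplicit false
set_option linter.unusedVariables false

namespace Pool.Agent.U198.FK

open H974 Finset H342P H984P H984N
open scoped Classical

noncomputable section

/-- The number of clusters (connected components of the open edges, with those of the wired arc)
of the rectangle. -/
def clus (D : Dm) (F : Finset Edg) : ℕ :=
  Set.ncard {C : Set Vtx | ∃ v : Vtx, inR D.l D.r 0 D.h v ∧ C = {u | Reach (D.cfg F) v u}}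

/-- The random-cluster weight. -/
def wt (q x : ℝ) (D : Dm) (F : Finset Edg) : ℝ := x ^ F.card * q ^ clus D F

/-- the cluster of a vertex -/
def cl (G : Set Edg) (v : Vtx) : Set Vtx := {u | Reach G v u}

theorem mem_cl_self (G : Set Edg) (v : Vtx) : v ∈ cl G v := Reach.refl G v

theorem cl_eq {G : Set Edg} {a b : Vtx} (h : Reach G a b) : cl G a = cl G b := by
  ext u
  exact ⟨fun h' => h.symm.trans h', fun h' => h.trans h'⟩

theorem reach_mono {G G' : Set Edg} (hG : G ⊆ G') {a b : Vtx} (h : Reach G a b) :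
    Reach G' a b := by
  induction h with
  | refl => exact Reach.refl _ _
  | tail _ h ih => exact ih.tail (h.mono hG)

theorem reach_insert {G : Set Edg} {e : Edg} {a b : Vtx} (h : Reach (insert e G) a b) :
    Reach G a b ∨ (Reach G a (src e) ∧ Reach G (tgt e) b) ∨
      (Reach G a (tgt e) ∧ Reach G (src e) b) := by
  induction h with
  | refl => exact Or.inl (Reach.refl _ _)
  | tail _ h ih =>
    obtain ⟨e', he', h⟩ := h
    rcases he' with rfl | he'
    · rcases h with ⟨h1, h2⟩ | ⟨h1, h2⟩
      · subst h1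
        subst h2
        rcases ih with ih | ⟨ih, _⟩ | ⟨ih, _⟩
        · exact Or.inr (Or.inl ⟨ih, Reach.refl _ _⟩)
        · exact Or.inr (Or.inl ⟨ih, Reach.refl _ _⟩)
        · exact Or.inl ih
      · subst h1
        subst h2
        rcases ih with ih | ⟨ih, _⟩ | ⟨ih, _⟩
        · exact Or.inr (Or.inr ⟨ih, Reach.refl _ _⟩)
        · exact Or.inl ih
        · exact Or.inr (Or.inr ⟨ih, Reach.refl _ _⟩)
    · have h3 : Adj G _ _ := ⟨e', he', h⟩
      rcases ih with ih | ⟨ih, ih'⟩ | ⟨ih, ih'⟩
      · exact Or.inl (ih.tail h3)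
      · exact Or.inr (Or.inl ⟨ih, ih'.tail h3⟩)
      · exact Or.inr (Or.inr ⟨ih, ih'.tail h3⟩)

theorem cl_isolated {G : Set Edg} {y : Vtx} (hy : ∀ e ∈ G, src e ≠ y ∧ tgt e ≠ y) :
    cl G y = {y} := by
  ext u
  rw [Set.mem_singleton_iff]
  constructor
  · intro h
    rcases Relation.ReflTransGen.cases_head h with h | ⟨c, ⟨e, he, h1⟩, _⟩
    · exact h.symm
    · obtain ⟨h2, h3⟩ := hy e he
      rcases h1 with ⟨h4, _⟩ | ⟨_, h4⟩
      · exact absurd h4 h2
      · exact absurd h4 h3
  · rintro rfl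
    exact Reach.refl _ _

/-- enlarging clusters -/
def up (G' : Set Edg) (C : Set Vtx) : Set Vtx := {u | ∃ v ∈ C, Reach G' v u}

theorem up_cl {G G' : Set Edg} (hG : G ⊆ G') (v : Vtx) : up G' (cl G v) = cl G' v := by
  ext u
  constructor
  · rintro ⟨v', h1, h2⟩
    exact (reach_mono hG h1).trans h2
  · intro h
    exact ⟨v, Reach.refl _ _, h⟩

theorem clus_eq (D : Dm) (F : Finset Edg) :
    clus D F = (cl (D.cfg F) '' {v | inR D.l D.r 0 D.h v}).ncard := by
  unfold clus
  congr 1
  ext C
  constructor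
  · rintro ⟨v, hv, rfl⟩
    exact ⟨v, hv, rfl⟩
  · rintro ⟨v, hv, rfl⟩
    exact ⟨v, hv, rfl⟩

theorem inR_finite (a b c d : ℤ) : {v : Vtx | inR a b c d v}.Finite := by
  refine (Finset.finite_toSet (Finset.Icc a b ×ˢ Finset.Icc c d)).subset ?_
  intro v hv
  have hv' : (a ≤ v.1 ∧ v.1 ≤ b) ∧ (c ≤ v.2 ∧ v.2 ≤ d) := hv
  simp only [Finset.coe_product, Set.mem_prod, Finset.coe_Icc, Set.mem_Icc]
  exact hv'

theorem ncard_insert {V : Set Vtx} (hV : V.Finite) (G : Set Edg) (e : Edg) :
    (cl (insert e G) '' V).ncard ≤ (cl G '' V).ncard ∧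
      (cl G '' V).ncard ≤ (cl (insert e G) '' V).ncard + 1 := by
  have hG : G ⊆ insert e G := Set.subset_insert e G
  have hfin : (cl G '' V).Finite := hV.image _
  have hfin' : (cl (insert e G) '' V).Finite := hV.image _
  constructor
  · have h1 : cl (insert e G) '' V = up (insert e G) '' (cl G '' V) := by
      rw [Set.image_image]
      exact Set.image_congr (fun v _ => (up_cl hG v).symm)
    rw [h1]
    exact Set.ncard_image_le hfin
  · have h1 : (cl G '' V \ {cl G (src e)}).ncard ≤ (cl (insert e G) '' V).ncard := by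
      refine Set.ncard_le_ncard_of_injOn (up (insert e G)) ?_ ?_ hfin'
      · rintro C ⟨⟨v, hv, rfl⟩, _⟩
        rw [up_cl hG]
        exact ⟨v, hv, rfl⟩
      · rintro C ⟨⟨a, ha, rfl⟩, ha'⟩ C' ⟨⟨b, hb, rfl⟩, hb'⟩ h
        rw [up_cl hG, up_cl hG] at h
        have h2 : Reach (insert e G) a b := by
          have : b ∈ cl (insert e G) b := mem_cl_self _ _
          rw [← h] at this
          exact this
        rcases reach_insert h2 with h3 | ⟨h3, _⟩ | ⟨_, h3⟩
        · exact cl_eq h3
        · exact absurd (cl_eq h3) ha'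
        · exact absurd (cl_eq h3).symm hb'
    have h2 := Set.ncard_le_ncard_diff_add_ncard (cl G '' V) {cl G (src e)}
      (Set.finite_singleton _)
    rw [Set.ncard_singleton] at h2
    omega

theorem ncard_isolated {V : Set Vtx} (hV : V.Finite) (G : Set Edg) (e : Edg) {v y : Vtx}
    (hv : v ∈ V) (hy : y ∈ V) (hvy : v ≠ y) (he : Adj {e} v y)
    (hiso : ∀ e ∈ G, src e ≠ y ∧ tgt e ≠ y) :
    (cl G '' V).ncard = (cl (insert e G) '' V).ncard + 1 := by
  have hG : G ⊆ insert e G := Set.subset_insert e G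
  have hfin : (cl G '' V).Finite := hV.image _
  have h0 := (ncard_insert hV G e).2
  have hy1 : {y} ∈ cl G '' V := ⟨y, hy, cl_isolated hiso⟩
  have hyc : Reach (insert e G) v y := by
    refine Relation.ReflTransGen.single (he.mono ?_)
    intro e' he'
    exact Or.inl he'
  have h1 : cl (insert e G) '' V ⊆ up (insert e G) '' (cl G '' V \ {{y}}) := by
    rintro C ⟨a, ha, rfl⟩
    by_cases hay : a = y
    · refine ⟨cl G v, ⟨⟨v, hv, rfl⟩, ?_⟩, ?_⟩
      · intro h
        have : v ∈ cl G v := mem_cl_self _ _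
        rw [Set.mem_singleton_iff.1 h] at this
        exact hvy this
      · rw [up_cl hG, hay]
        exact cl_eq hyc
    · refine ⟨cl G a, ⟨⟨a, ha, rfl⟩, ?_⟩, up_cl hG a⟩
      intro h
      have : a ∈ cl G a := mem_cl_self _ _
      rw [Set.mem_singleton_iff.1 h] at this
      exact hay this
  have h2 : (cl (insert e G) '' V).ncard ≤ (cl G '' V \ {{y}}).ncard :=
    (Set.ncard_le_ncard h1 ((hfin.subset Set.diff_subset).image _)).trans
      (Set.ncard_image_le (hfin.subset Set.diff_subset))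
  have h3 := Set.ncard_diff_singleton_add_one hy1 hfin
  omega

theorem cfg_insert (D : Dm) (F : Finset Edg) (e : Edg) :
    D.cfg (insert e F) = insert e (D.cfg F) := by
  unfold Dm.cfg
  rw [Finset.coe_insert, Set.insert_union]

theorem clus_insert (D : Dm) (F : Finset Edg) (e : Edg) :
    clus D (insert e F) ≤ clus D F ∧ clus D F ≤ clus D (insert e F) + 1 := by
  rw [clus_eq, clus_eq, cfg_insert]
  exact ncard_insert (inR_finite _ _ _ _) _ _

theorem clus_isolated (D : Dm) (F : Finset Edg) {e : Edg} {v y : Vtx}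
    (hv : inR D.l D.r 0 D.h v) (hy : inR D.l D.r 0 D.h y) (hvy : v ≠ y) (he : Adj {e} v y)
    (hiso : ∀ e ∈ D.cfg F, src e ≠ y ∧ tgt e ≠ y) : clus D F = clus D (insert e F) + 1 := by
  rw [clus_eq, clus_eq, cfg_insert]
  exact ncard_isolated (inR_finite _ _ _ _) _ _ hv hy hvy he hiso

theorem wt_pos {q x : ℝ} (hq : 0 < q) (hx : 0 < x) (D : Dm) (F : Finset Edg) : 0 < wt q x D F := by
  unfold wt
  positivity

theorem wt_insert {q x : ℝ} (hq : 0 < q) (hx : 0 < x) (D : Dm) {F : Finset Edg} {e : Edg}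
    (he : e ∉ F) : wt q x D (insert e F) ≤ (x + x / q) * wt q x D F := by
  obtain ⟨h1, h2⟩ := clus_insert D F e
  unfold wt
  rw [Finset.card_insert_of_notMem he]
  have hx' : 0 < x ^ F.card := pow_pos hx _
  have hxq : 0 < x / q := div_pos hx hq
  rcases Nat.lt_or_ge (clus D (insert e F)) (clus D F) with h3 | h3
  · have h4 : clus D F = clus D (insert e F) + 1 := by omega
    rw [h4]
    have hq' : 0 < q ^ clus D (insert e F) := pow_pos hq _
    have e1 : x ^ (F.card + 1) * q ^ clus D (insert e F) =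
        x / q * (x ^ F.card * q ^ (clus D (insert e F) + 1)) := by
      rw [pow_succ, pow_succ]
      field_simp
    rw [e1]
    refine mul_le_mul_of_nonneg_right (by linarith) (by positivity)
  · have h4 : clus D F = clus D (insert e F) := by omega
    rw [h4]
    have hq' : 0 < q ^ clus D (insert e F) := pow_pos hq _
    have e1 : x ^ (F.card + 1) * q ^ clus D (insert e F) =
        x * (x ^ F.card * q ^ clus D (insert e F)) := by
      rw [pow_succ]
      ring
    rw [e1]
    refine mul_le_mul_of_nonneg_right (by linarith) (by positivity)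

theorem wt_isolated {q x : ℝ} (hq : 0 < q) (D : Dm) {F : Finset Edg} {e : Edg}
    (he : e ∉ F) {v y : Vtx}
    (hv : inR D.l D.r 0 D.h v) (hy : inR D.l D.r 0 D.h y) (hvy : v ≠ y) (had : Adj {e} v y)
    (hiso : ∀ e ∈ D.cfg F, src e ≠ y ∧ tgt e ≠ y) :
    wt q x D (insert e F) = x / q * wt q x D F := by
  have h := clus_isolated D F hv hy hvy had hiso
  unfold wt
  rw [Finset.card_insert_of_notMem he, h, pow_succ, pow_succ]
  field_simp

end

end Pool.Agent.U198.FK
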