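import Pool.Agent.U198.FK.Test
import Pool.Agent.N929.EG.GC

/-!
# Pendant edges on the interface
-/

set_option autoImplicit false
set_option linter.unusedVariables false

namespace Pool.Agent.U198.FK

open H974 Finset H342P H984P H984N
open scoped Classical

noncomputable section

theorem loop_states (σ : St) : ae (mv σ) ≠ ae σ ∧ ae (rt (mv σ)) ≠ ae σ ∧
    ae (rt (rt (mv σ))) ≠ ae σ ∧ ae (rt (rt (rt (mv σ)))) = ae σ ∧
    mv (rt (rt (rt (mv σ)))) = rt σ := by
  obtain ⟨⟨x, y⟩, c⟩ := σ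
  cases c <;> simp

theorem ae_inj {σ τ : St} (h : σ.1 = τ.1) (h' : ae σ = ae τ) : σ = τ := by
  obtain ⟨⟨x, y⟩, c⟩ := σ
  obtain ⟨⟨x', y'⟩, c'⟩ := τ
  simp only [Prod.mk.injEq] at h
  obtain ⟨rfl, rfl⟩ := h
  cases c <;> cases c' <;> simp at h' ⊢ <;> omega

theorem mv_ne (σ : St) : (mv σ).1 ≠ σ.1 := by
  obtain ⟨⟨x, y⟩, c⟩ := σ
  cases c <;> simp

theorem start_not {D : Dm} (hD : D.Ok) {y : Vtx} (hy : y ∈ Yt D) : (Dm.start D).1 ≠ y := by
  intro h
  obtain ⟨h1, h2, h3⟩ := mem_Yt.1 hy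
  have e1 : (Dm.start D).1 = (D.t, D.h) := rfl
  rw [e1] at h
  have hh := hD.h_pos
  rcases lt_or_eq_of_le hD.l_le with h4 | h4
  · have h5 : ((D.t - 1, D.h, true) : Edg) ∈ D.wir :=
      Or.inl ⟨rfl, rfl, by show D.l ≤ D.t - 1; omega, by show D.t - 1 < D.t; omega⟩
    refine (h3 _ h5).2 ?_
    rw [← h]
    simp
  · have h5 : ((D.l, D.h - 1, false) : Edg) ∈ D.wir :=
      Or.inr (Or.inl ⟨rfl, rfl, by show 0 ≤ D.h - 1; omega, by show D.h - 1 < D.h; omega⟩)
    refine (h3 _ h5).2 ?_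
    rw [← h, ← h4]
    simp

theorem stop_not {D : Dm} (hD : D.Ok) {y : Vtx} (hy : y ∈ Yt D) : (Dm.stop).1 ≠ y := by
  intro h
  obtain ⟨h1, h2, h3⟩ := mem_Yt.1 hy
  have e1 : (Dm.stop).1 = ((0, 0) : Vtx) := rfl
  rw [e1] at h
  have hl := hD.l_neg
  have h5 : ((-1, 0, true) : Edg) ∈ D.wir :=
    Or.inr (Or.inr ⟨rfl, rfl, by show D.l ≤ -1; omega, by show (-1 : ℤ) < 0; omega⟩)
  refine (h3 _ h5).2 ?_
  rw [← h]
  simp

/-- a vertex is reached through an open edge -/
theorem arrive {D : Dm} {F : Finset Edg} {y : Vtx} (hy : Ev y) (hs : (Dm.start D).1 ≠ y) :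
    ∀ j, (D.walk F j).1 = y → ∃ i < j, ae (D.walk F i) ∈ D.cfg F ∧
      (src (ae (D.walk F i)) = y ∨ tgt (ae (D.walk F i)) = y) := by
  intro j
  induction j with
  | zero =>
    intro h
    rw [walk_zero] at h
    exact absurd h hs
  | succ j ih =>
    intro h
    rw [walk_succ] at h
    by_cases h1 : ae (D.walk F j) ∈ D.cfg F
    · rw [nxt_open h1] at h
      refine ⟨j, Nat.lt_succ_self j, h1, ?_⟩
      rcases p2_ends (D.walk F j) with ⟨_, h2⟩ | ⟨h2, _⟩
      · exact Or.inr (h2.trans h)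
      · exact Or.inl (h2.trans h)
    · rw [nxt_closed h1, p2_rt_fst] at h
      obtain ⟨i, hi, h2⟩ := ih h
      exact ⟨i, by omega, h2⟩

/-- `k` is the first time at which an edge of `y` is examined, before the end, and the other
edges of `y` are closed -/
def GA (D : Dm) (F : Finset Edg) (y : Vtx) (k : ℕ) : Prop :=
  k < D.len F ∧ ye D F k = y ∧ (∀ j < k, ye D F j ≠ y) ∧ ∀ e ∈ F, ev e = y → e = ae (D.walk F k)

/-- there is a slot at `y` -/
def Gd (D : Dm) (F : Finset Edg) (y : Vtx) : Prop := ∃ k, GA D F y k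

/-- the edge of the slot at `y` -/
def eg (D : Dm) (F : Finset Edg) (y : Vtx) : Edg := ae (D.walk F (sInf {k | ye D F k = y}))

theorem GA.eg {D : Dm} {F : Finset Edg} {y : Vtx} {k : ℕ} (h : GA D F y k) :
    FK.eg D F y = ae (D.walk F k) := by
  unfold FK.eg
  have h1 : sInf {k | ye D F k = y} = k := by
    apply le_antisymm
    · exact Nat.sInf_le h.2.1
    · by_contra h2
      push Not at h2
      exact h.2.2.1 _ h2 (Nat.sInf_mem (s := {k | ye D F k = y}) ⟨k, h.2.1⟩)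
  rw [h1]

theorem GA.ne {D : Dm} (hD : D.Ok) {F : Finset Edg} {y : Vtx} {k : ℕ} (hy : y ∈ Yt D)
    (h : GA D F y k) : (D.walk F k).1 ≠ y := by
  intro h1
  obtain ⟨i, hi, _, h2⟩ := arrive (mem_Yt.1 hy).2.1 (start_not hD hy) k h1
  exact h.2.2.1 i hi (ev_of (mem_Yt.1 hy).2.1 h2)

theorem GA.mv {D : Dm} (hD : D.Ok) {F : Finset Edg} {y : Vtx} {k : ℕ} (hy : y ∈ Yt D)
    (h : GA D F y k) : (H984P.mv (D.walk F k)).1 = y := by
  have h1 := h.ne hD hy
  have h2 : src (ae (D.walk F k)) = y ∨ tgt (ae (D.walk F k)) = y :=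
    (ev_iff (mem_Yt.1 hy).2.1).1 h.2.1
  rcases p2_ends (D.walk F k) with ⟨h3, h4⟩ | ⟨h3, h4⟩
  · rcases h2 with h2 | h2
    · exact absurd (h3.symm.trans h2) h1
    · exact h4.symm.trans h2
  · rcases h2 with h2 | h2
    · exact h3.symm.trans h2
    · exact absurd (h4.symm.trans h2) h1

theorem mem_edges_of {D : Dm} {e : Edg} (h1 : inR D.l D.r 0 D.h (src e))
    (h2 : inR D.l D.r 0 D.h (tgt e)) : e ∈ D.edges := by
  obtain ⟨x, y, b⟩ := e
  unfold Dm.edges
  cases b
  · simp only [src_mk, tgt_false, inR] at h1 h2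
    rw [mem_RE_false]
    omega
  · simp only [src_mk, tgt_true, inR] at h1 h2
    rw [mem_RE_true]
    omega

theorem GA.mem_edges {D : Dm} (hD : D.Ok) {F : Finset Edg} (hF : F ⊆ D.edges) {y : Vtx} {k : ℕ}
    (hy : y ∈ Yt D) (h : GA D F y k) : ae (D.walk F k) ∈ D.edges := by
  have h1 := walk_in hD hF k
  have h2 := h.mv hD hy
  have h3 := (mem_Yt.1 hy).1
  rcases p2_ends (D.walk F k) with ⟨h4, h5⟩ | ⟨h4, h5⟩
  · refine mem_edges_of ?_ ?_
    · rw [h4]; exact h1
    · rw [h5, h2]; exact h3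
  · refine mem_edges_of ?_ ?_
    · rw [h4, h2]; exact h3
    · rw [h5]; exact h1

theorem GA.iso {D : Dm} {F : Finset Edg} {y : Vtx} {k : ℕ} (hy : y ∈ Yt D)
    (h : GA D F y k) (he : ae (D.walk F k) ∉ F) : ∀ e ∈ D.cfg F, src e ≠ y ∧ tgt e ≠ y := by
  intro e h1
  rcases h1 with h1 | h1
  · rw [← not_or]
    intro h2
    have h3 := h.2.2.2 e h1 (ev_of (mem_Yt.1 hy).2.1 h2)
    rw [h3] at h1
    exact he h1
  · exact (mem_Yt.1 hy).2.2 e h1

theorem walk_agree {D : Dm} {F F' : Finset Edg} {k : ℕ}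
    (h : ∀ j < k, (ae (D.walk F j) ∈ F ↔ ae (D.walk F j) ∈ F')) :
    ∀ j, j ≤ k → D.walk F' j = D.walk F j := by
  intro j
  induction j with
  | zero => intro _; rw [walk_zero, walk_zero]
  | succ j ih =>
    intro hj
    have ih' := ih (by omega)
    rw [walk_succ, walk_succ, ih']
    have h3 : ae (D.walk F j) ∈ D.cfg F ↔ ae (D.walk F j) ∈ D.cfg F' := by
      unfold Dm.cfg
      rw [Set.mem_union, Set.mem_union, Finset.mem_coe, Finset.mem_coe, h j (by omega)]
    by_cases h4 : ae (D.walk F j) ∈ D.cfg F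
    · rw [nxt_open h4, nxt_open (h3.1 h4)]
    · rw [nxt_closed h4, nxt_closed (fun h => h4 (h3.2 h))]

/-- the index map -/
def ph (k j : ℕ) : ℕ := if j ≤ k then j else j + 4

structure Tog (D : Dm) (F : Finset Edg) (y : Vtx) (k : ℕ) : Prop where
  sub : insert (ae (D.walk F k)) F ⊆ D.edges
  low : ∀ j, j ≤ k → D.walk (insert (ae (D.walk F k)) F) j = D.walk F j
  mid : ∀ j, k < j → j ≤ k + 4 → (D.walk (insert (ae (D.walk F k)) F) j).1 = y
  high : ∀ j, k < j → j ≤ D.len F → D.walk (insert (ae (D.walk F k)) F) (j + 4) = D.walk F j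
  len : D.len (insert (ae (D.walk F k)) F) = D.len F + 4

theorem tog {D : Dm} (hD : D.Ok) {F : Finset Edg} (hF : F ⊆ D.edges) {y : Vtx} {k : ℕ}
    (hy : y ∈ Yt D) (h : GA D F y k) (he : ae (D.walk F k) ∉ F) : Tog D F y k := by
  obtain ⟨σ, hσ⟩ : ∃ σ, σ = D.walk F k := ⟨_, rfl⟩
  obtain ⟨e, hedef⟩ : ∃ e, e = ae σ := ⟨_, rfl⟩
  obtain ⟨F', hF'def⟩ : ∃ F', F' = insert e F := ⟨_, rfl⟩
  have hyE := (mem_Yt.1 hy).2.1
  have hyW := (mem_Yt.1 hy).2.2
  have hiso := h.iso hy he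
  have hmv : (mv σ).1 = y := by rw [hσ]; exact h.mv hD hy
  have hne : σ.1 ≠ y := by rw [hσ]; exact h.ne hD hy
  have hev : ev e = y := by rw [hedef, hσ]; exact h.2.1
  have heF : e ∉ F := by rw [hedef, hσ]; exact he
  have hsub : F' ⊆ D.edges := by
    rw [hF'def]
    refine insert_subset ?_ hF
    rw [hedef, hσ]
    exact h.mem_edges hD hF hy
  have hcfg : D.cfg F' = insert e (D.cfg F) := by rw [hF'def, cfg_insert]
  -- never at `y`
  have hnot : ∀ j, (D.walk F j).1 ≠ y := by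
    intro j hj
    obtain ⟨i, _, h1, h2⟩ := arrive hyE (start_not hD hy) j hj
    obtain ⟨h3, h4⟩ := hiso _ h1
    exact h2.elim h3 h4
  have hlow : ∀ j, j ≤ k → D.walk F' j = D.walk F j := by
    refine walk_agree (fun j hj => ?_)
    rw [hF'def, mem_insert]
    have h1 : ae (D.walk F j) ≠ e := by
      intro h2
      refine h.2.2.1 j hj ?_
      unfold ye
      rw [h2]
      exact hev
    exact ⟨fun h2 => Or.inr h2, fun h2 => h2.resolve_left h1⟩
  -- the excursion
  obtain ⟨l1, l2, l3, l4, l5⟩ := loop_states σ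
  have hclosed : ∀ τ : St, τ.1 = y → ae τ ≠ e → ae τ ∉ D.cfg F' := by
    intro τ h1 h2 h3
    rw [hcfg] at h3
    rcases h3 with h3 | h3
    · exact h2 h3
    · obtain ⟨h4, h5⟩ := hiso _ h3
      rcases p2_ends τ with ⟨h6, _⟩ | ⟨_, h6⟩
      · exact h4 (h6.trans h1)
      · exact h5 (h6.trans h1)
  have heC : e ∈ D.cfg F' := by rw [hcfg]; exact Or.inl rfl
  have w1 : D.walk F' (k + 1) = mv σ := by
    rw [walk_succ, hlow k le_rfl, ← hσ, nxt_open (by rw [← hedef]; exact heC)]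
  have w2 : D.walk F' (k + 2) = rt (mv σ) := by
    rw [walk_succ, w1, nxt_closed]
    refine hclosed _ hmv ?_
    rw [hedef]
    exact l1
  have w3 : D.walk F' (k + 3) = rt (rt (mv σ)) := by
    rw [walk_succ, w2, nxt_closed]
    refine hclosed _ (by rw [p2_rt_fst]; exact hmv) ?_
    rw [hedef]
    exact l2
  have w4 : D.walk F' (k + 4) = rt (rt (rt (mv σ))) := by
    rw [walk_succ, w3, nxt_closed]
    refine hclosed _ (by rw [p2_rt_fst, p2_rt_fst]; exact hmv) ?_
    rw [hedef]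
    exact l3
  have w5 : D.walk F' (k + 5) = rt σ := by
    rw [walk_succ, w4, nxt_open, l5]
    rw [l4, ← hedef]
    exact heC
  have hmid : ∀ j, k < j → j ≤ k + 4 → (D.walk F' j).1 = y := by
    intro j h1 h2
    obtain ⟨i, rfl⟩ : ∃ i, j = k + i := ⟨j - k, by omega⟩
    have h3 : i = 1 ∨ i = 2 ∨ i = 3 ∨ i = 4 := by omega
    rcases h3 with rfl | rfl | rfl | rfl
    · rw [w1]; exact hmv
    · rw [w2, p2_rt_fst]; exact hmv
    · rw [w3, p2_rt_fst, p2_rt_fst]; exact hmv
    · rw [w4, p2_rt_fst, p2_rt_fst, p2_rt_fst]; exact hmv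
  have hkl : k < D.len F := h.1
  have hhigh : ∀ i, k + 1 + i ≤ D.len F → D.walk F' (k + 1 + i + 4) = D.walk F (k + 1 + i) := by
    intro i
    induction i with
    | zero =>
      intro _
      show D.walk F' (k + 5) = D.walk F (k + 1)
      rw [w5, walk_succ, ← hσ, nxt_closed]
      intro h1
      rw [← hedef] at h1
      obtain ⟨h2, h3⟩ := hiso _ h1
      exact (((ev_iff hyE).1 hev).elim h2 h3)
    | succ i ih =>
      intro hi
      have ih' := ih (by omega)
      have e1 : k + 1 + (i + 1) + 4 = (k + 1 + i + 4) + 1 := by ring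
      have e2 : k + 1 + (i + 1) = (k + 1 + i) + 1 := by ring
      rw [e1, e2, walk_succ D F' (k + 1 + i + 4), walk_succ D F (k + 1 + i), ih']
      have h1 : ae (D.walk F (k + 1 + i)) ≠ e := by
        intro h2
        have h3 : (D.walk F (k + 1 + i)).1 = σ.1 := by
          have h4 : src e = (D.walk F (k + 1 + i)).1 ∨ tgt e = (D.walk F (k + 1 + i)).1 := by
            rw [← h2]
            rcases p2_ends (D.walk F (k + 1 + i)) with ⟨h5, _⟩ | ⟨_, h5⟩
            · exact Or.inl h5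
            · exact Or.inr h5
          have h6 := hnot (k + 1 + i)
          rcases p2_ends σ with ⟨h7, h8⟩ | ⟨h7, h8⟩
          · rw [← hedef] at h7 h8
            rw [hmv] at h8
            rcases h4 with h4 | h4
            · exact h4.symm.trans h7
            · exact absurd (h4.symm.trans h8) h6
          · rw [← hedef] at h7 h8
            rw [hmv] at h7
            rcases h4 with h4 | h4
            · exact absurd (h4.symm.trans h7) h6
            · exact h4.symm.trans h8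
        have h4 := ae_inj h3 (h2.trans hedef)
        rw [hσ] at h4
        exact walk_inj hD hF (i := k) (j := k + 1 + i) (by omega) (by omega) h4.symm
      by_cases h2 : ae (D.walk F (k + 1 + i)) ∈ D.cfg F
      · rw [nxt_open h2, nxt_open]
        rw [hcfg]
        exact Or.inr h2
      · rw [nxt_closed h2, nxt_closed]
        rw [hcfg]
        intro h3
        rcases h3 with h3 | h3
        · exact h1 h3
        · exact h2 h3
  have hhigh' : ∀ j, k < j → j ≤ D.len F → D.walk F' (j + 4) = D.walk F j := by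
    intro j h1 h2
    obtain ⟨i, rfl⟩ : ∃ i, j = k + 1 + i := ⟨j - (k + 1), by omega⟩
    exact hhigh i h2
  have hlen : D.len F' = D.len F + 4 := by
    apply le_antisymm
    · refine Nat.sInf_le ?_
      show D.walk F' (D.len F + 4) = Dm.stop
      rw [hhigh' _ hkl le_rfl]
      exact walk_len hD hF
    · by_contra h1
      push Not at h1
      have h2 := walk_len hD hsub
      obtain ⟨j, hj⟩ : ∃ j, j = D.len F' := ⟨_, rfl⟩
      rw [← hj] at h1 h2
      rcases Nat.lt_or_ge k j with h3 | h3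
      · rcases Nat.lt_or_ge (k + 4) j with h4 | h4
        · have h5 := hhigh' (j - 4) (by omega) (by omega)
          rw [show j - 4 + 4 = j by omega, h2] at h5
          exact clu_ne_stop (D := D) (F := F) (k := j - 4) (by omega) h5.symm
        · have h5 := hmid j h3 h4
          rw [h2] at h5
          exact stop_not hD hy h5
      · have h5 := hlow j h3
        rw [h2] at h5
        exact clu_ne_stop (D := D) (F := F) (k := j) (by omega) h5.symm
  rw [hedef, hσ] at hF'def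
  rw [hF'def] at hsub hlow hmid hhigh' hlen
  exact ⟨hsub, hlow, hmid, hhigh', hlen⟩

/-- the conversion of indices -/
theorem Tog.idx {D : Dm} {F : Finset Edg} {y : Vtx} {k : ℕ} (T : Tog D F y k)
    {j : ℕ} (hj : j ≤ D.len F) : D.walk (insert (ae (D.walk F k)) F) (ph k j) = D.walk F j := by
  unfold ph
  split_ifs with h
  · exact T.low j h
  · exact T.high j (by omega) hj

theorem tog_GA {D : Dm} (hD : D.Ok) {F : Finset Edg} (hF : F ⊆ D.edges) {y : Vtx} {k : ℕ}
    (hy : y ∈ Yt D) (h : GA D F y k) (he : ae (D.walk F k) ∉ F) :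
    GA D (insert (ae (D.walk F k)) F) y k ∧ D.walk (insert (ae (D.walk F k)) F) k = D.walk F k := by
  have T := tog hD hF hy h he
  have hk := T.low k le_rfl
  refine ⟨⟨?_, ?_, ?_, ?_⟩, hk⟩
  · rw [T.len]
    have := h.1
    omega
  · unfold ye
    rw [hk]
    exact h.2.1
  · intro j hj
    unfold ye
    rw [T.low j hj.le]
    exact h.2.2.1 j hj
  · intro e h1 h2
    rw [hk]
    rcases mem_insert.1 h1 with h1 | h1
    · exact h1
    · exact h.2.2.2 e h1 h2

theorem tog_up {D : Dm} (hD : D.Ok) {F : Finset Edg} (hF : F ⊆ D.edges) {y : Vtx} {k : ℕ}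
    (hy : y ∈ Yt D) (h : GA D F y k) (he : ae (D.walk F k) ∉ F) {y' : Vtx} (hne : y' ≠ y)
    {k' : ℕ} (h' : GA D F y' k') :
    GA D (insert (ae (D.walk F k)) F) y' (ph k k') ∧
      D.walk (insert (ae (D.walk F k)) F) (ph k k') = D.walk F k' := by
  have T := tog hD hF hy h he
  have hyE := (mem_Yt.1 hy).2.1
  have hk := T.idx (j := k') h'.1.le
  refine ⟨⟨?_, ?_, ?_, ?_⟩, hk⟩
  · rw [T.len]
    have := h'.1
    unfold ph
    split_ifs <;> omega
  · unfold ye
    rw [hk]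
    exact h'.2.1
  · intro j hj
    rcases Nat.lt_or_ge k j with h1 | h1
    · rcases Nat.lt_or_ge (k + 4) j with h2 | h2
      · obtain ⟨i, rfl⟩ : ∃ i, j = i + 4 := ⟨j - 4, by omega⟩
        have h3 : i < k' := by
          unfold ph at hj
          split_ifs at hj <;> omega
        have := h'.1
        unfold ye
        rw [T.high i (by omega) (by omega)]
        exact h'.2.2.1 i h3
      · have h3 := T.mid j h1 h2
        intro h4
        apply hne
        unfold ye at h4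
        rw [← h4]
        refine ev_of hyE ?_
        rcases p2_ends (D.walk (insert (ae (D.walk F k)) F) j) with ⟨h5, _⟩ | ⟨_, h5⟩
        · exact Or.inl (h5.trans h3)
        · exact Or.inr (h5.trans h3)
    · unfold ye
      rw [T.low j h1]
      refine h'.2.2.1 j ?_
      unfold ph at hj
      split_ifs at hj <;> omega
  · intro e h1 h2
    rw [hk]
    rcases mem_insert.1 h1 with h1 | h1
    · exfalso
      apply hne
      rw [← h2, h1]
      exact h.2.1
    · exact h'.2.2.2 e h1 h2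

theorem tog_down {D : Dm} (hD : D.Ok) {F : Finset Edg} (hF : F ⊆ D.edges) {y : Vtx} {k : ℕ}
    (hy : y ∈ Yt D) (h : GA D F y k) (he : ae (D.walk F k) ∉ F) {y' : Vtx} (hne : y' ≠ y)
    {m : ℕ} (h' : GA D (insert (ae (D.walk F k)) F) y' m) : ∃ k', GA D F y' k' := by
  have T := tog hD hF hy h he
  have hyE := (mem_Yt.1 hy).2.1
  have hm : m < D.len F + 4 := by
    rw [← T.len]
    exact h'.1
  have hkl := h.1
  -- the index in the old path
  obtain ⟨k', hk', hlt, hw⟩ : ∃ k', m = ph k k' ∧ k' < D.len F ∧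
      D.walk (insert (ae (D.walk F k)) F) m = D.walk F k' := by
    rcases Nat.lt_or_ge k m with h1 | h1
    · rcases Nat.lt_or_ge (k + 4) m with h2 | h2
      · refine ⟨m - 4, ?_, by omega, ?_⟩
        · unfold ph
          rw [if_neg (by omega)]
          omega
        · have h3 := T.high (m - 4) (by omega) (by omega)
          rw [show m - 4 + 4 = m by omega] at h3
          exact h3
      · exfalso
        have h3 := T.mid m h1 h2
        apply hne
        rw [← h'.2.1]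
        refine ev_of hyE ?_
        rcases p2_ends (D.walk (insert (ae (D.walk F k)) F) m) with ⟨h5, _⟩ | ⟨_, h5⟩
        · exact Or.inl (h5.trans h3)
        · exact Or.inr (h5.trans h3)
    · refine ⟨m, ?_, by omega, T.low m h1⟩
      unfold ph
      rw [if_pos h1]
  refine ⟨k', hlt, ?_, ?_, ?_⟩
  · unfold ye
    rw [← hw]
    exact h'.2.1
  · intro j hj h1
    refine h'.2.2.1 (ph k j) ?_ ?_
    · rw [hk']
      unfold ph
      split_ifs <;> omega
    · unfold ye
      rw [T.idx (by omega)]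
      exact h1
  · intro e h1 h2
    rw [← hw]
    exact h'.2.2.2 e (mem_insert_of_mem h1) h2

/-- occupying a free slot -/
theorem gd_insert {D : Dm} (hD : D.Ok) {F : Finset Edg} (hF : F ⊆ D.edges) {y : Vtx}
    (hy : y ∈ Yt D) (h : Gd D F y) (he : eg D F y ∉ F) :
    insert (eg D F y) F ⊆ D.edges ∧ D.len (insert (eg D F y) F) = D.len F + 4 ∧
      (∀ y', Gd D (insert (eg D F y) F) y' ↔ Gd D F y') ∧
      ∀ y', Gd D F y' → eg D (insert (eg D F y) F) y' = eg D F y' := by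
  obtain ⟨k, hk⟩ := h
  rw [hk.eg] at he ⊢
  have T := tog hD hF hy hk he
  refine ⟨T.sub, T.len, fun y' => ?_, fun y' h' => ?_⟩
  · by_cases hne : y' = y
    · subst hne
      exact ⟨fun _ => ⟨k, hk⟩, fun _ => ⟨k, (tog_GA hD hF hy hk he).1⟩⟩
    · constructor
      · rintro ⟨m, hm⟩
        exact tog_down hD hF hy hk he hne hm
      · rintro ⟨k', hk'⟩
        exact ⟨_, (tog_up hD hF hy hk he hne hk').1⟩
  · by_cases hne : y' = y
    · subst hne
      obtain ⟨h1, h2⟩ := tog_GA hD hF hy hk he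
      rw [h1.eg, hk.eg, h2]
    · obtain ⟨k', hk'⟩ := h'
      obtain ⟨h1, h2⟩ := tog_up hD hF hy hk he hne hk'
      rw [h1.eg, hk'.eg, h2]

/-- freeing a slot -/
theorem gd_erase {D : Dm} (hD : D.Ok) {F : Finset Edg} (hF : F ⊆ D.edges) {y : Vtx}
    (hy : y ∈ Yt D) (h : Gd D F y) : Gd D (F.erase (eg D F y)) y ∧
      eg D (F.erase (eg D F y)) y = eg D F y := by
  obtain ⟨k, hk⟩ := h
  obtain ⟨e, he⟩ : ∃ e, e = eg D F y := ⟨_, rfl⟩
  rw [← he]
  have hek : e = ae (D.walk F k) := by rw [he, hk.eg]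
  have hsub : F.erase e ⊆ D.edges := (erase_subset _ _).trans hF
  have hw : ∀ j, j ≤ k → D.walk (F.erase e) j = D.walk F j := by
    refine walk_agree (fun j hj => ?_)
    rw [mem_erase]
    have h1 : ae (D.walk F j) ≠ e := by
      intro h2
      refine hk.2.2.1 j hj ?_
      unfold ye
      rw [h2, hek]
      exact hk.2.1
    exact ⟨fun h2 => ⟨h1, h2⟩, fun h2 => h2.2⟩
  have hlen : k < D.len (F.erase e) := by
    by_contra h1
    push Not at h1
    have h2 := walk_len hD hsub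
    rw [hw _ h1] at h2
    exact clu_ne_stop (D := D) (F := F) (k := D.len (F.erase e)) (lt_of_le_of_lt h1 hk.1) h2
  have hGA : GA D (F.erase e) y k := by
    refine ⟨hlen, ?_, ?_, ?_⟩
    · unfold ye
      rw [hw k le_rfl]
      exact hk.2.1
    · intro j hj
      unfold ye
      rw [hw j hj.le]
      exact hk.2.2.1 j hj
    · intro e' h1 h2
      rw [hw k le_rfl]
      exact hk.2.2.2 e' (mem_of_mem_erase h1) h2
  refine ⟨⟨k, hGA⟩, ?_⟩
  rw [hGA.eg, hw k le_rfl, ← hek]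

/-- two places are in conflict only if they are equal -/
def cfE (a b : Vtx) : Prop := a = b

open Pool.Agent.N929.EG in
/-- the system of moves -/
def TSf (D : Dm) (hD : D.Ok) : TS (Finset Edg) Vtx where
  K n := Fl D.edges.powerset (fun F => D.len F = n)
  len := D.len
  S F := Fl (Yt D) (fun y => Gd D F y ∧ eg D F y ∉ F)
  B F := Fl (Yt D) (fun y => Gd D F y ∧ eg D F y ∈ F)
  ins F y := insert (eg D F y) F
  rem F y := F.erase (eg D F y)
  s := 4
  cf := cfE
  d := 1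
  U _ := Yt D
  hs := by norm_num
  len_K n F h := (mem_Fl.1 h).2
  ins_K n F y hF hy := by
    obtain ⟨h1, h2⟩ := mem_Fl.1 hF
    obtain ⟨h3, h4, h5⟩ := mem_Fl.1 hy
    obtain ⟨g1, g2, g3, g4⟩ := gd_insert hD (mem_powerset.1 h1) h3 h4 h5
    exact mem_Fl.2 ⟨mem_powerset.2 g1, by rw [g2, h2]⟩
  ins_B n F y hF hy := by
    obtain ⟨h1, h2⟩ := mem_Fl.1 hF
    obtain ⟨h3, h4, h5⟩ := mem_Fl.1 hy
    obtain ⟨g1, g2, g3, g4⟩ := gd_insert hD (mem_powerset.1 h1) h3 h4 h5
    exact mem_Fl.2 ⟨h3, (g3 y).2 h4, by rw [g4 y h4]; exact mem_insert_self _ _⟩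
  rem_ins n F y hF hy := by
    obtain ⟨h1, h2⟩ := mem_Fl.1 hF
    obtain ⟨h3, h4, h5⟩ := mem_Fl.1 hy
    obtain ⟨g1, g2, g3, g4⟩ := gd_insert hD (mem_powerset.1 h1) h3 h4 h5
    rw [g4 y h4, erase_insert h5]
  rem_le n F y hF hy := by
    obtain ⟨h1, h2⟩ := mem_Fl.1 hF
    obtain ⟨h3, h4, h5⟩ := mem_Fl.1 hy
    obtain ⟨k1, k2⟩ := gd_erase hD (mem_powerset.1 h1) h3 h4
    obtain ⟨g1, g2, g3, g4⟩ := gd_insert hD ((erase_subset _ _).trans (mem_powerset.1 h1)) h3 k1
      (by rw [k2]; exact notMem_erase _ _)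
    rw [k2, insert_erase h5, h2] at g2
    omega
  rem_K n F y hF hy := by
    obtain ⟨h1, h2⟩ := mem_Fl.1 hF
    obtain ⟨h3, h4, h5⟩ := mem_Fl.1 hy
    obtain ⟨k1, k2⟩ := gd_erase hD (mem_powerset.1 h1) h3 h4
    obtain ⟨g1, g2, g3, g4⟩ := gd_insert hD ((erase_subset _ _).trans (mem_powerset.1 h1)) h3 k1
      (by rw [k2]; exact notMem_erase _ _)
    rw [k2, insert_erase h5, h2] at g2
    exact mem_Fl.2 ⟨mem_powerset.2 ((erase_subset _ _).trans (mem_powerset.1 h1)), by omega⟩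
  rem_S n F y hF hy := by
    obtain ⟨h1, h2⟩ := mem_Fl.1 hF
    obtain ⟨h3, h4, h5⟩ := mem_Fl.1 hy
    obtain ⟨k1, k2⟩ := gd_erase hD (mem_powerset.1 h1) h3 h4
    exact mem_Fl.2 ⟨h3, k1, by rw [k2]; exact notMem_erase _ _⟩
  ins_rem n F y hF hy := by
    obtain ⟨h1, h2⟩ := mem_Fl.1 hF
    obtain ⟨h3, h4, h5⟩ := mem_Fl.1 hy
    obtain ⟨k1, k2⟩ := gd_erase hD (mem_powerset.1 h1) h3 h4
    rw [k2, insert_erase h5]
  disj n F y hF hy := by
    obtain ⟨h3, h4, h5⟩ := mem_Fl.1 hy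
    intro h
    exact h5 (mem_Fl.1 h).2.2
  cf_symm a b h := Eq.symm h
  ins_S n F y y' hF hy hyy := by
    obtain ⟨h1, h2⟩ := mem_Fl.1 hF
    obtain ⟨h3, h4, h5⟩ := mem_Fl.1 hy
    obtain ⟨g1, g2, g3, g4⟩ := gd_insert hD (mem_powerset.1 h1) h3 h4 h5
    rw [mem_Fl, mem_Fl]
    constructor
    · rintro ⟨k1, k2, k3⟩
      have k4 := (g3 y').1 k2
      rw [g4 y' k4] at k3
      exact ⟨k1, k4, fun h => k3 (mem_insert_of_mem h)⟩
    · rintro ⟨k1, k2, k3⟩
      refine ⟨k1, (g3 y').2 k2, ?_⟩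
      rw [g4 y' k2]
      intro h
      rcases mem_insert.1 h with h | h
      · obtain ⟨j, hj⟩ := k2
        obtain ⟨i, hi⟩ := h4
        rw [hj.eg, hi.eg] at h
        apply hyy
        rw [← hi.2.1, ← hj.2.1]
        unfold ye
        rw [h]
        rfl
      · exact k3 h
  ins_BB n F y y' hF hy hyy := by
    obtain ⟨h1, h2⟩ := mem_Fl.1 hF
    obtain ⟨h3, h4, h5⟩ := mem_Fl.1 hy
    obtain ⟨g1, g2, g3, g4⟩ := gd_insert hD (mem_powerset.1 h1) h3 h4 h5
    rw [mem_Fl, mem_Fl]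
    constructor
    · rintro ⟨k1, k2, k3⟩
      have k4 := (g3 y').1 k2
      rw [g4 y' k4] at k3
      refine ⟨k1, k4, ?_⟩
      rcases mem_insert.1 k3 with h | h
      · exfalso
        obtain ⟨j, hj⟩ := k4
        obtain ⟨i, hi⟩ := h4
        rw [hj.eg, hi.eg] at h
        apply hyy
        rw [← hi.2.1, ← hj.2.1]
        unfold ye
        rw [h]
        rfl
      · exact h
    · rintro ⟨k1, k2, k3⟩
      refine ⟨k1, (g3 y').2 k2, ?_⟩
      rw [g4 y' k2]
      exact mem_insert_of_mem k3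
  ins_comm n F y y' hF hy hy' hyy := by
    obtain ⟨h1, h2⟩ := mem_Fl.1 hF
    obtain ⟨h3, h4, h5⟩ := mem_Fl.1 hy
    obtain ⟨h3', h4', h5'⟩ := mem_Fl.1 hy'
    obtain ⟨g1, g2, g3, g4⟩ := gd_insert hD (mem_powerset.1 h1) h3 h4 h5
    obtain ⟨g1', g2', g3', g4'⟩ := gd_insert hD (mem_powerset.1 h1) h3' h4' h5'
    rw [g4 y' h4', g4' y h4]
    exact Finset.insert_comm _ _ _
  S_U n N F hF hn := by
    refine ⟨fun y hy => (mem_Fl.1 hy).1, fun y hy => (mem_Fl.1 hy).1⟩
  deg N y hy := by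
    rw [card_le_one]
    intro a ha b hb
    rw [mem_filter] at ha hb
    exact ha.2.symm.trans hb.2

end

end Pool.Agent.U198.FK
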