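import Pool.Agent.U198.FK.Mod
import Pool.Agent.U198.FK.Mart
import Pool.Agent.H984R4.NP.Walk

/-!
# Tests along the interface of the random-cluster model
-/

set_option autoImplicit false
set_option linter.unusedVariables false

namespace Pool.Agent.U198.FK

open H974 Finset H342P H984P H984N
open scoped Classical

noncomputable section

/-- even vertices -/
def Ev (v : Vtx) : Prop := Even (v.1 + v.2)

/-- the even end of an edge -/
def ev (e : Edg) : Vtx := if Ev (src e) then src e else tgt e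

theorem ev_even (e : Edg) : Ev (ev e) := by
  unfold ev
  by_cases h : Ev (src e)
  · rw [if_pos h]
    exact h
  · rw [if_neg h]
    obtain ⟨x, y, b⟩ := e
    unfold Ev at h ⊢
    rw [Int.not_even_iff_odd] at h
    cases b
    · simp only [src_mk, tgt_false] at h ⊢
      rw [← add_assoc]
      exact h.add_one
    · simp only [src_mk, tgt_true] at h ⊢
      rw [add_right_comm]
      exact h.add_one

theorem ev_end (e : Edg) : ev e = src e ∨ ev e = tgt e := by
  unfold ev
  split_ifs
  · exact Or.inl rfl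
  · exact Or.inr rfl

theorem ev_of {e : Edg} {y : Vtx} (hy : Ev y) (h : src e = y ∨ tgt e = y) : ev e = y := by
  unfold ev
  rcases h with h | h
  · rw [h, if_pos hy]
  · rw [if_neg ?_, h]
    intro h2
    subst h
    obtain ⟨x, y, b⟩ := e
    unfold Ev at hy h2
    cases b
    · simp only [src_mk, tgt_false] at hy h2
      rw [← add_assoc] at hy
      exact (Int.not_even_iff_odd.2 h2.add_one) hy
    · simp only [src_mk, tgt_true] at hy h2
      rw [add_right_comm] at hy
      exact (Int.not_even_iff_odd.2 h2.add_one) hy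

theorem ev_iff {e : Edg} {y : Vtx} (hy : Ev y) : ev e = y ↔ (src e = y ∨ tgt e = y) := by
  constructor
  · intro h
    rcases ev_end e with h1 | h1
    · exact Or.inl (h1.symm.trans h)
    · exact Or.inr (h1.symm.trans h)
  · exact ev_of hy

/-- the edges at a vertex -/
def star (y : Vtx) : Finset Edg :=
  {(y.1, y.2, true), (y.1 - 1, y.2, true), (y.1, y.2, false), (y.1, y.2 - 1, false)}

theorem star_card (y : Vtx) : (star y).card ≤ 4 := by
  unfold star
  exact Finset.card_le_four

theorem mem_star {e : Edg} {y : Vtx} (h : ev e = y) : e ∈ star y := by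
  have h1 : src e = y ∨ tgt e = y := by
    rcases ev_end e with h1 | h1
    · exact Or.inl (h1.symm.trans h)
    · exact Or.inr (h1.symm.trans h)
  obtain ⟨x, z, b⟩ := e
  unfold star
  rcases h1 with h1 | h1
  · subst h1
    cases b <;> simp
  · subst h1
    cases b <;> simp

/-- the tested vertices: even, without edges of the wired arc -/
def Yt (D : Dm) : Finset Vtx :=
  (Finset.Icc D.l D.r ×ˢ Finset.Icc 0 D.h).filter
    (fun y => Ev y ∧ ∀ e ∈ D.wir, src e ≠ y ∧ tgt e ≠ y)

theorem mem_Yt {D : Dm} {y : Vtx} :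
    y ∈ Yt D ↔ inR D.l D.r 0 D.h y ∧ Ev y ∧ ∀ e ∈ D.wir, src e ≠ y ∧ tgt e ≠ y := by
  unfold Yt
  rw [mem_filter, mem_product, mem_Icc, mem_Icc]
  rfl

/-- the even end of the edge examined at time `t` -/
def ye (D : Dm) (F : Finset Edg) (t : ℕ) : Vtx := ev (ae (D.walk F t))

/-- the even vertices with an examined edge -/
def Vs (D : Dm) (t : ℕ) (F : Finset Edg) : Finset Vtx := (range t).image (fun j => ye D F j)

theorem mem_Vs {D : Dm} {t : ℕ} {F : Finset Edg} {y : Vtx} :
    y ∈ Vs D t F ↔ ∃ j < t, ye D F j = y := by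
  unfold Vs
  simp

/-- the information after `t` steps -/
def key (D : Dm) (t : ℕ) (F : Finset Edg) : Finset Vtx × Finset Edg :=
  (Vs D t F, F.filter (fun e => ev e ∈ Vs D t F))

/-- two configurations agree at the even vertices visited by the first -/
def Agr (D : Dm) (t : ℕ) (F F' : Finset Edg) : Prop := ∀ e, ev e ∈ Vs D t F → (e ∈ F ↔ e ∈ F')

theorem Agr.walk {D : Dm} {t : ℕ} {F F' : Finset Edg} (h : Agr D t F F') :
    ∀ j, j ≤ t → D.walk F j = D.walk F' j := by
  intro j
  induction j with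
  | zero => intro _; rw [walk_zero, walk_zero]
  | succ j ih =>
    intro hj
    have ih' := ih (by omega)
    rw [walk_succ, walk_succ, ← ih']
    have h1 : ev (ae (D.walk F j)) ∈ Vs D t F := mem_Vs.2 ⟨j, by omega, rfl⟩
    have h2 := h _ h1
    have h3 : ae (D.walk F j) ∈ D.cfg F ↔ ae (D.walk F j) ∈ D.cfg F' := by
      unfold Dm.cfg
      rw [Set.mem_union, Set.mem_union, Finset.mem_coe, Finset.mem_coe, h2]
    by_cases h4 : ae (D.walk F j) ∈ D.cfg F
    · rw [nxt_open h4, nxt_open (h3.1 h4)]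
    · rw [nxt_closed h4, nxt_closed (fun h => h4 (h3.2 h))]

theorem Agr.Vs {D : Dm} {t : ℕ} {F F' : Finset Edg} (h : Agr D t F F') {s : ℕ} (hs : s ≤ t + 1) :
    Vs D s F = Vs D s F' := by
  unfold FK.Vs
  refine image_congr ?_
  intro j hj
  have hj' : j < s := by simpa using hj
  show ev (ae (D.walk F j)) = ev (ae (D.walk F' j))
  rw [h.walk j (by omega)]

theorem key_iff {D : Dm} {t : ℕ} {F F' : Finset Edg} : key D t F = key D t F' ↔ Agr D t F F' := by
  constructor
  · intro h e he
    have h1 : Vs D t F = Vs D t F' := congrArg Prod.fst h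
    have h2 : F.filter (fun e => ev e ∈ Vs D t F) = F'.filter (fun e => ev e ∈ Vs D t F') :=
      congrArg Prod.snd h
    have h3 : e ∈ F.filter (fun e => ev e ∈ Vs D t F) ↔
        e ∈ F'.filter (fun e => ev e ∈ Vs D t F') := by rw [h2]
    rw [mem_filter, mem_filter, ← h1] at h3
    exact ⟨fun h => (h3.1 ⟨h, he⟩).1, fun h => (h3.2 ⟨h, he⟩).1⟩
  · intro h
    have h1 := h.Vs (Nat.le_succ t)
    unfold key
    rw [← h1]
    congr 1
    ext e
    rw [mem_filter, mem_filter]
    exact ⟨fun ⟨h2, h3⟩ => ⟨(h e h3).1 h2, h3⟩, fun ⟨h2, h3⟩ => ⟨(h e h3).2 h2, h3⟩⟩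

/-- the path has not reached its end, and examines for the first time an edge of a tested
vertex -/
def tch (D : Dm) (t : ℕ) (F : Finset Edg) : Prop :=
  (∀ j ≤ t, D.walk F j ≠ Dm.stop) ∧ ye D F t ∈ Yt D ∧ ye D F t ∉ Vs D t F

/-- the other edges of this vertex are closed -/
def suc (D : Dm) (t : ℕ) (F : Finset Edg) : Prop :=
  tch D t F ∧ ∀ e ∈ F, ev e = ye D F t → e = ae (D.walk F t)

theorem tch_agr {D : Dm} {t : ℕ} {F F' : Finset Edg} (h : Agr D t F F') (ht : tch D t F) :
    tch D t F' := by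
  obtain ⟨h1, h2, h3⟩ := ht
  have hw := h.walk t le_rfl
  have hy : ye D F' t = ye D F t := by
    unfold ye
    rw [hw]
  refine ⟨fun j hj => ?_, ?_, ?_⟩
  · rw [← h.walk j hj]
    exact h1 j hj
  · rw [hy]
    exact h2
  · rw [hy, ← h.Vs (Nat.le_succ t)]
    exact h3

theorem Agr.mono {D : Dm} {s t : ℕ} (hst : s ≤ t) {F F' : Finset Edg} (h : Agr D t F F') :
    Agr D s F F' := by
  intro e he
  obtain ⟨j, hj, hj'⟩ := mem_Vs.1 he
  exact h e (mem_Vs.2 ⟨j, by omega, hj'⟩)

/-- the weight of a set of configurations -/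
def Sm (q x : ℝ) (D : Dm) (P : Finset Edg → Prop) : ℝ :=
  ∑ F ∈ Fl D.edges.powerset P, wt q x D F

section close

variable {q x : ℝ} (hq : 0 < q) (hx : 0 < x) (D : Dm)

include hq hx

theorem Sm_mono {P Q : Finset Edg → Prop} (h : ∀ F, P F → Q F) : Sm q x D P ≤ Sm q x D Q := by
  refine sum_le_sum_of_subset_of_nonneg ?_ (fun F _ _ => (wt_pos hq hx D F).le)
  intro F hF
  rw [mem_Fl] at hF ⊢
  exact ⟨hF.1, h F hF.2⟩

theorem Sm_nonneg (P : Finset Edg → Prop) : 0 ≤ Sm q x D P :=
  sum_nonneg (fun F _ => (wt_pos hq hx D F).le)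

/-- closing one edge -/
theorem close_one (P : Finset Edg → Prop) (e : Edg) (hP : ∀ F, P F → P (F.erase e)) :
    Sm q x D P ≤ (1 + (x + x / q)) * Sm q x D (fun F => P F ∧ e ∉ F) := by
  have h1 : Sm q x D P = Sm q x D (fun F => P F ∧ e ∈ F) + Sm q x D (fun F => P F ∧ e ∉ F) := by
    unfold Sm
    rw [← sum_filter_add_sum_filter_not (Fl D.edges.powerset P) (fun F => e ∈ F)
      (fun F => wt q x D F)]
    congr 1
    · refine sum_congr ?_ (fun _ _ => rfl)
      ext F
      rw [mem_filter, mem_Fl, mem_Fl, and_assoc]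
    · refine sum_congr ?_ (fun _ _ => rfl)
      ext F
      rw [mem_filter, mem_Fl, mem_Fl, and_assoc]
  rw [h1]
  have h3 : Sm q x D (fun F => P F ∧ e ∈ F) ≤ (x + x / q) * Sm q x D (fun F => P F ∧ e ∉ F) := by
    unfold Sm
    have h4 : ∀ F ∈ Fl D.edges.powerset (fun F => P F ∧ e ∈ F),
        wt q x D F ≤ (x + x / q) * wt q x D (F.erase e) := by
      intro F hF
      have h5 := (mem_Fl.1 hF).2.2
      have h6 := wt_insert hq hx D (F := F.erase e) (notMem_erase e F)
      rwa [insert_erase h5] at h6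
    refine (sum_le_sum h4).trans ?_
    rw [← mul_sum]
    refine mul_le_mul_of_nonneg_left ?_ (by positivity)
    have h5 : ∑ F ∈ Fl D.edges.powerset (fun F => P F ∧ e ∈ F), wt q x D (F.erase e) =
        ∑ F ∈ (Fl D.edges.powerset (fun F => P F ∧ e ∈ F)).image (fun F => F.erase e),
          wt q x D F := by
      rw [sum_image]
      intro F hF F' hF' h
      have h6 : e ∈ F := (mem_Fl.1 hF).2.2
      have h7 : e ∈ F' := (mem_Fl.1 hF').2.2
      have h8 : F.erase e = F'.erase e := h
      rw [← insert_erase h6, h8, insert_erase h7]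
    rw [h5]
    refine sum_le_sum_of_subset_of_nonneg ?_ (fun F _ _ => (wt_pos hq hx D F).le)
    intro F' hF'
    obtain ⟨F, hF, rfl⟩ := mem_image.1 hF'
    obtain ⟨hF1, hF2⟩ := mem_Fl.1 hF
    exact mem_Fl.2 ⟨mem_powerset.2 ((erase_subset _ _).trans (mem_powerset.1 hF1)),
      hP F hF2.1, notMem_erase e F⟩
  rw [add_mul, one_mul]
  linarith

/-- closing the edges of a set -/
theorem close_all (T : Finset Edg) (P : Finset Edg → Prop)
    (hP : ∀ F, P F → ∀ e ∈ T, P (F.erase e)) :
    Sm q x D P ≤ (1 + (x + x / q)) ^ T.card *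
      Sm q x D (fun F => P F ∧ ∀ e ∈ T, e ∉ F) := by
  induction T using Finset.induction_on with
  | empty =>
    rw [card_empty, pow_zero, one_mul]
    exact Sm_mono hq hx D (fun F hF => ⟨hF, fun e he => absurd he (notMem_empty e)⟩)
  | insert e T he ih =>
    have h1 := ih (fun F hF e he => hP F hF e (mem_insert_of_mem he))
    have h2 := close_one hq hx D (fun F => P F ∧ ∀ e ∈ T, e ∉ F) e (by
      rintro F ⟨h3, h4⟩
      exact ⟨hP F h3 e (mem_insert_self e T), fun e' he' h5 => h4 e' he' (mem_of_mem_erase h5)⟩)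
    rw [card_insert_of_notMem he, pow_succ]
    have h3 : Sm q x D (fun F => (P F ∧ ∀ e ∈ T, e ∉ F) ∧ e ∉ F) ≤
        Sm q x D (fun F => P F ∧ ∀ e' ∈ insert e T, e' ∉ F) := by
      refine Sm_mono hq hx D ?_
      rintro F ⟨⟨h4, h5⟩, h6⟩
      refine ⟨h4, ?_⟩
      rw [forall_mem_insert]
      exact ⟨h6, h5⟩
    have hpos : (0 : ℝ) ≤ 1 + (x + x / q) := by positivity
    have h4 : (0 : ℝ) ≤ (1 + (x + x / q)) ^ T.card := by positivity
    refine h1.trans ?_
    rw [mul_assoc]
    refine mul_le_mul_of_nonneg_left (h2.trans ?_) h4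
    exact mul_le_mul_of_nonneg_left h3 hpos

end close

/-- **the exploration of the interface** -/
theorem explFK {q x ρ : ℝ} (hq : 0 < q) (hx : 0 < x) (hρ : x + x / q ≤ ρ) (D : Dm) :
    Expl D.edges.powerset (wt q x D) (key D) (tch D) (suc D) ((1 + ρ) ^ 4) := by
  have hxq : 0 < x / q := div_pos hx hq
  refine ⟨fun F _ => (wt_pos hq hx D F).le, ?_, ?_, ?_, ?_, ?_⟩
  · intro t F _ F' _ h
    rw [key_iff] at h ⊢
    exact h.mono (Nat.le_succ t)
  · intro t F _ F' _ h ht
    exact tch_agr (key_iff.1 h) ht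
  · intro t F _ F' _ h hs
    have h1 := key_iff.1 h
    obtain ⟨h2, h3⟩ := hs
    have hw := h1.walk t (Nat.le_succ t)
    have hy : ye D F' t = ye D F t := by
      unfold ye
      rw [hw]
    refine ⟨tch_agr (h1.mono (Nat.le_succ t)) h2, ?_⟩
    intro e he he'
    rw [hy] at he'
    rw [← hw]
    refine h3 e ((h1 e ?_).2 he) he'
    rw [he']
    exact mem_Vs.2 ⟨t, Nat.lt_succ_self t, rfl⟩
  · intro t F _ h
    exact h.1
  · intro t F₀ hF₀ ht
    obtain ⟨y, hy⟩ : ∃ y, y = ye D F₀ t := ⟨_, rfl⟩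
    obtain ⟨e₀, he₀⟩ : ∃ e₀, e₀ = ae (D.walk F₀ t) := ⟨_, rfl⟩
    obtain ⟨T, hT⟩ : ∃ T, T = (star y).filter (fun e => ev e = y ∧ e ≠ e₀) := ⟨_, rfl⟩
    have hTc : T.card ≤ 4 := by
      rw [hT]
      exact (card_filter_le _ _).trans (star_card y)
    have hyV : y ∉ Vs D t F₀ := by
      rw [hy]
      exact ht.2.2
    have h1 := close_all hq hx D T (fun F => key D t F = key D t F₀) (by
      intro F hF e he
      rw [hT, mem_filter] at he
      show key D t (F.erase e) = key D t F₀
      have h2 : Agr D t F₀ F := key_iff.1 (show key D t F₀ = key D t F from hF.symm)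
      refine (key_iff.2 (fun e' he' => ?_)).symm
      rw [h2 e' he', mem_erase]
      constructor
      · intro h3
        refine ⟨?_, h3⟩
        rintro rfl
        rw [he.2.1] at he'
        exact hyV he'
      · exact fun h3 => h3.2)
    have h2 : Sm q x D (fun F => key D t F = key D t F₀ ∧ ∀ e ∈ T, e ∉ F) ≤
        Sm q x D (fun F => key D t F = key D t F₀ ∧ suc D t F) := by
      refine Sm_mono hq hx D ?_
      rintro F ⟨hF2, hF3⟩
      refine ⟨hF2, ?_⟩
      have h3 : Agr D t F₀ F := key_iff.1 hF2.symm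
      refine ⟨tch_agr h3 ht, ?_⟩
      intro e he he'
      have hw := h3.walk t le_rfl
      have hy' : ye D F t = y := by
        rw [hy]
        unfold ye
        rw [hw]
      rw [← hw, ← he₀]
      by_contra hne
      refine hF3 e ?_ he
      rw [hT, mem_filter]
      rw [hy'] at he'
      exact ⟨mem_star he', he', hne⟩
    have h4 := Sm_nonneg hq hx D (fun F => key D t F = key D t F₀ ∧ suc D t F)
    have h5 : (1 + (x + x / q)) ^ T.card ≤ (1 + ρ) ^ 4 :=
      calc (1 + (x + x / q)) ^ T.card ≤ (1 + ρ) ^ T.card :=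
            pow_le_pow_left₀ (by positivity) (by linarith) _
        _ ≤ (1 + ρ) ^ 4 := pow_le_pow_right₀ (by linarith) hTc
    have hpos : (0 : ℝ) ≤ (1 + (x + x / q)) ^ T.card := by positivity
    have h6 := h1.trans (mul_le_mul_of_nonneg_left h2 hpos)
    have h7 := h6.trans (mul_le_mul_of_nonneg_right h5 h4)
    exact h7

end

end Pool.Agent.U198.FK
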